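import Mathlib

/-!
# Minors of families of vectors
-/

set_option autoImplicit false

namespace Pool.Agent.FewGroups

/-- `K` independent vectors in `ι → F` have a nonzero `K × K` minor. -/
lemma exists_minor {F ι : Type*} [Field F] {K : ℕ} (v : Fin K → ι → F)
    (hv : LinearIndependent F v) :
    ∃ s : Fin K → ι, (Matrix.of fun i j => v i (s j)).det ≠ 0 := by
  classical
  let col : ι → (Fin K → F) := fun x i => v i x
  have hspan : Submodule.span F (Set.range col) = ⊤ := by
    by_contra hne
    obtain ⟨f, hf0, hf⟩ := Submodule.exists_le_ker_of_lt_top _ (lt_top_iff_ne_top.mpr hne)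
    apply hf0
    -- f is given by coefficients
    have h1 : ∀ y : Fin K → F, f y = ∑ i, y i * f (Pi.single i 1) := by
      intro y
      conv_lhs => rw [← Finset.univ_sum_single y]
      rw [map_sum]
      apply Finset.sum_congr rfl
      intro i _
      rw [← smul_eq_mul, ← map_smul]
      congr 1
      ext j
      by_cases h : j = i
      · subst h; simp
      · simp [h]
    have h2 : ∑ i, f (Pi.single i 1) • v i = 0 := by
      funext x
      have h3 : f (col x) = 0 := hf (Submodule.subset_span ⟨x, rfl⟩)
      rw [h1] at h3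
      simp only [Finset.sum_apply, Pi.smul_apply, smul_eq_mul, Pi.zero_apply]
      rw [← h3]
      apply Finset.sum_congr rfl
      intro i _
      simp only [col]
      ring
    have h4 := Fintype.linearIndependent_iff.mp hv _ h2
    ext i
    simp [h4]
  obtain ⟨b, hb1, hb2, hb3⟩ := exists_linearIndependent F (Set.range col)
  rw [hspan] at hb2
  let B : Module.Basis b F (Fin K → F) := Module.Basis.mk hb3 (by
    rw [Subtype.range_coe_subtype, Set.ofPred_mem_eq, hb2])
  have hfin : Fintype b := FiniteDimensional.fintypeBasisIndex B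
  have hcard : Fintype.card b = K := by
    have := Module.finrank_eq_card_basis B
    rw [Module.finrank_fin_fun] at this
    exact this.symm
  let e : Fin K ≃ b := (Fintype.equivFinOfCardEq hcard).symm
  have hpre : ∀ j : Fin K, ∃ x, col x = (e j : Fin K → F) := fun j => hb1 (e j).2
  choose s hs using hpre
  refine ⟨s, ?_⟩
  have h5 : LinearIndependent F (Matrix.of fun i j => v i (s j)).col := by
    have h6 : (Matrix.of fun i j => v i (s j)).col = (fun x : b => (x : Fin K → F)) ∘ e := by
      funext j
      rw [Function.comp, ← hs j]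
      rfl
    rw [h6]
    exact hb3.comp _ e.injective
  have h7 := Matrix.linearIndependent_cols_iff_isUnit.mp h5
  rw [Matrix.isUnit_iff_isUnit_det] at h7
  exact h7.ne_zero

/-- A matrix of linear forms of dependent vectors is singular. -/
lemma det_eq_zero_of_not_li {F E : Type*} [Field F] [AddCommGroup E] [Module F E] {K : ℕ}
    (v : Fin K → E) (hv : ¬ LinearIndependent F v) (L : Fin K → (E →ₗ[F] F)) :
    (Matrix.of fun i j => L j (v i)).det = 0 := by
  by_contra h
  apply hv
  have h1 : LinearIndependent F (Matrix.of fun i j => L j (v i)).row := by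
    rw [Matrix.linearIndependent_rows_iff_isUnit, Matrix.isUnit_iff_isUnit_det]
    exact isUnit_iff_ne_zero.mpr h
  have h2 : (Matrix.of fun i j => L j (v i)).row = (LinearMap.pi L) ∘ v := by
    funext i
    rfl
  rw [h2] at h1
  exact LinearIndependent.of_comp _ h1

/-- Expansion along the first column, with bounds. -/
lemma first_column_bound {K : ℕ} (A : Matrix (Fin (K + 1)) (Fin (K + 1)) ℝ) (hA : A.det = 0)
    (η E : ℝ) (hη : 0 ≤ η) (hE : 0 ≤ E) (h0 : ∀ i : Fin K, |A i.succ 0| ≤ η)
    (h1 : ∀ i (j : Fin K), |A i j.succ| ≤ E) :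
    |A 0 0| * |(A.submatrix Fin.succ Fin.succ).det| ≤ K * (η * (K.factorial * E ^ K)) := by
  rw [Matrix.det_succ_column_zero, Fin.sum_univ_succ] at hA
  have h2 : A 0 0 * (A.submatrix Fin.succ Fin.succ).det =
      -∑ i : Fin K, (-1) ^ ((i.succ : Fin (K + 1)) : ℕ) * A i.succ 0 *
        (A.submatrix i.succ.succAbove Fin.succ).det := by
    simp only [Fin.val_zero, pow_zero, one_mul] at hA
    have h3 : A.submatrix (Fin.succAbove 0) Fin.succ = A.submatrix Fin.succ Fin.succ := by
      congr 1
    rw [h3] at hA
    linarith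
  rw [← abs_mul, h2, abs_neg]
  refine (Finset.abs_sum_le_sum_abs _ _).trans ?_
  have h4 : ∀ i ∈ (Finset.univ : Finset (Fin K)),
      |(-1) ^ ((i.succ : Fin (K + 1)) : ℕ) * A i.succ 0 *
        (A.submatrix i.succ.succAbove Fin.succ).det| ≤ η * (K.factorial * E ^ K) := by
    intro i _
    rw [abs_mul, abs_mul, abs_pow, abs_neg, abs_one, one_pow, one_mul]
    apply mul_le_mul (h0 i) _ (abs_nonneg _) hη
    have h5 := Matrix.det_le (A := A.submatrix i.succ.succAbove Fin.succ)
      (abv := (IsAbsoluteValue.toAbsoluteValue (abs : ℝ → ℝ))) (x := E)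
      (fun i' j' => h1 _ _)
    simpa using h5
  refine (Finset.sum_le_sum h4).trans ?_
  rw [Finset.sum_const, Finset.card_univ, Fintype.card_fin, nsmul_eq_mul]

end Pool.Agent.FewGroups
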