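import Mathlib
import Pool.Agent.OneClass.Norm

/-!
# Taylor coefficients of a polynomial given by its coefficient function

`ev c x = ∑_γ c_γ x^γ`, `γ : Fin r → Fin (d+1)`, and `tay c γ x` is the `γ`-th Hasse derivative at
`x`, so that `ev c (ℓ + x) = ∑_γ ℓ^γ tay c γ x`.
-/

set_option autoImplicit false

namespace Pool.Agent.FewGroups

open MvPolynomial Pool.Agent.OneClass

variable {r d : ℕ}

/-- Evaluation of the polynomial with coefficients `c`. -/
noncomputable def ev {S : Type*} [CommRing S] (c : (Fin r → Fin (d + 1)) → ℤ) (x : Fin r → S) : S :=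
  ∑ γ, (c γ : S) * ∏ k, x k ^ (γ k : ℕ)

/-- The Taylor coefficients. -/
noncomputable def tay {S : Type*} [CommRing S] (c : (Fin r → Fin (d + 1)) → ℤ)
    (γ : Fin r → Fin (d + 1)) (x : Fin r → S) : S :=
  ∑ α, (c α : S) * ∏ k, ((Nat.choose (α k) (γ k) : ℕ) : S) * x k ^ ((α k : ℕ) - (γ k : ℕ))

lemma map_tay {S T : Type*} [CommRing S] [CommRing T] (φ : S →+* T)
    (c : (Fin r → Fin (d + 1)) → ℤ) (γ : Fin r → Fin (d + 1)) (x : Fin r → S) :
    φ (tay c γ x) = tay c γ (fun k => φ (x k)) := by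
  simp [tay]

lemma binom_extend {S : Type*} [CommRing S] (a : Fin (d + 1)) (x y : S) :
    ∑ j : Fin (d + 1), x ^ (j : ℕ) * (((Nat.choose a j : ℕ) : S) * y ^ ((a : ℕ) - (j : ℕ))) =
      (x + y) ^ (a : ℕ) := by
  rw [add_pow, Finset.sum_range (fun i => x ^ i * (((Nat.choose a i : ℕ) : S) * y ^ ((a : ℕ) - i)))
    |>.symm]
  have h : Finset.range ((a : ℕ) + 1) ⊆ Finset.range (d + 1) :=
    Finset.range_subset_range.mpr (by have := a.2; omega)
  rw [← Finset.sum_subset h]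
  · apply Finset.sum_congr rfl
    intro i _
    ring
  · intro i _ hi
    rw [Finset.mem_range, not_lt] at hi
    rw [Nat.choose_eq_zero_of_lt (by omega)]
    simp

lemma taylor {S : Type*} [CommRing S] (c : (Fin r → Fin (d + 1)) → ℤ) (ℓ x : Fin r → S) :
    ∑ γ, (∏ k, ℓ k ^ (γ k : ℕ)) * tay c γ x = ev c (fun k => ℓ k + x k) := by
  simp only [tay, ev, Finset.mul_sum]
  rw [Finset.sum_comm]
  apply Finset.sum_congr rfl
  intro α _
  have h1 : ∀ γ : Fin r → Fin (d + 1), (∏ k, ℓ k ^ (γ k : ℕ)) * ((c α : S) *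
      ∏ k, ((Nat.choose (α k) (γ k) : ℕ) : S) * x k ^ ((α k : ℕ) - (γ k : ℕ))) =
      (c α : S) * ∏ k, (ℓ k ^ (γ k : ℕ) * (((Nat.choose (α k) (γ k) : ℕ) : S) *
        x k ^ ((α k : ℕ) - (γ k : ℕ)))) := by
    intro γ
    rw [Finset.prod_mul_distrib (f := fun k => ℓ k ^ (γ k : ℕ))]
    ring
  simp only [h1]
  rw [← Finset.mul_sum]
  congr 1
  have h2 := Finset.prod_univ_sum (fun _ : Fin r => (Finset.univ : Finset (Fin (d + 1))))
    (fun k j => ℓ k ^ (j : ℕ) * (((Nat.choose (α k) (j : ℕ) : ℕ) : S) *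
        x k ^ ((α k : ℕ) - (j : ℕ))))
  rw [Fintype.piFinset_univ] at h2
  rw [← h2]
  apply Finset.prod_congr rfl
  intro k _
  exact binom_extend (α k) (ℓ k) (x k)

/-- The Taylor coefficients of order greater than the degree vanish. -/
lemma tay_eq_zero {S : Type*} [CommRing S] (c : (Fin r → Fin (d + 1)) → ℤ)
    (hc : ∀ α, d < ∑ k, (α k : ℕ) → c α = 0) (γ : Fin r → Fin (d + 1))
    (hγ : d < ∑ k, (γ k : ℕ)) (x : Fin r → S) : tay c γ x = 0 := by
  rw [tay]
  apply Finset.sum_eq_zero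
  intro α _
  by_cases hα : d < ∑ k, (α k : ℕ)
  · rw [hc α hα]; simp
  · have h1 : ∃ k, (α k : ℕ) < (γ k : ℕ) := by
      by_contra hcon
      push Not at hcon
      have := Finset.sum_le_sum (s := Finset.univ) (fun k _ => hcon k)
      omega
    obtain ⟨k, hk⟩ := h1
    rw [Finset.prod_eq_zero (Finset.mem_univ k), mul_zero]
    rw [Nat.choose_eq_zero_of_lt hk]
    simp

lemma taylor_restrict {S : Type*} [CommRing S] (c : (Fin r → Fin (d + 1)) → ℤ)
    (hc : ∀ α, d < ∑ k, (α k : ℕ) → c α = 0) (ℓ x : Fin r → S) :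
    ∑ γ : {γ : Fin r → Fin (d + 1) // ∑ k, (γ k : ℕ) ≤ d},
      (∏ k, ℓ k ^ (γ.1 k : ℕ)) * tay c γ.1 x = ev c (fun k => ℓ k + x k) := by
  classical
  rw [← taylor]
  have h1 : ∑ γ : {γ : Fin r → Fin (d + 1) // ∑ k, (γ k : ℕ) ≤ d},
      (∏ k, ℓ k ^ (γ.1 k : ℕ)) * tay c γ.1 x =
      ∑ γ ∈ Finset.univ.filter (fun γ : Fin r → Fin (d + 1) => ∑ k, (γ k : ℕ) ≤ d),
        (∏ k, ℓ k ^ (γ k : ℕ)) * tay c γ x := by
    rw [Finset.sum_subtype (Finset.univ.filter
      (fun γ : Fin r → Fin (d + 1) => ∑ k, (γ k : ℕ) ≤ d)) (p := fun γ => ∑ k, (γ k : ℕ) ≤ d)]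
    intro γ
    simp
  rw [h1, Finset.sum_filter]
  apply Finset.sum_congr rfl
  intro γ _
  split_ifs with h
  · rfl
  · rw [tay_eq_zero c hc γ (not_le.mp h), mul_zero]

/-- The exponents of degree at most `2`. -/
lemma card_deg_two (r : ℕ) :
    Fintype.card {γ : Fin r → Fin (2 + 1) // ∑ k, (γ k : ℕ) ≤ 2} ≤ (r + 1) ^ 2 := by
  classical
  let e : Option (Fin r) → Fin r → ℕ := fun a k => if a = some k then 1 else 0
  have hsur : ∀ γ : {γ : Fin r → Fin (2 + 1) // ∑ k, (γ k : ℕ) ≤ 2},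
      ∃ ab : Option (Fin r) × Option (Fin r), ∀ k, (γ.1 k : ℕ) = e ab.1 k + e ab.2 k := by
    rintro ⟨γ, hγ⟩
    simp only
    by_cases h0 : ∀ k, (γ k : ℕ) = 0
    · exact ⟨(none, none), fun k => by simp [e, h0]⟩
    push Not at h0
    obtain ⟨k, hk⟩ := h0
    have hk1 : 1 ≤ (γ k : ℕ) := Nat.one_le_iff_ne_zero.mpr hk
    have hle : ∀ l, e (some k) l ≤ (γ l : ℕ) := by
      intro l
      by_cases hl : k = l
      · subst hl; simpa [e] using hk1
      · simp [e, hl]
    have hsum1 : ∑ l, e (some k) l = 1 := by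
      simp [e]
    by_cases h1 : ∀ l, (γ l : ℕ) - e (some k) l = 0
    · refine ⟨(some k, none), fun l => ?_⟩
      have h2 := h1 l
      have h3 := hle l
      have h4 : e none l = 0 := by simp [e]
      simp only [h4]
      omega
    push Not at h1
    obtain ⟨l, hl⟩ := h1
    refine ⟨(some k, some l), fun x => ?_⟩
    simp only
    have hle2 : ∀ x, e (some k) x + e (some l) x ≤ (γ x : ℕ) := by
      intro x
      by_cases hx : l = x
      · subst hx
        have : e (some l) l = 1 := by simp [e]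
        rw [this]
        omega
      · have : e (some l) x = 0 := by simp [e, hx]
        rw [this, add_zero]
        exact hle x
    have hsum2 : ∑ x, (e (some k) x + e (some l) x) = 2 := by
      rw [Finset.sum_add_distrib, hsum1]
      simp [e]
    have heq : ∑ x, (e (some k) x + e (some l) x) = ∑ x, (γ x : ℕ) :=
      le_antisymm (Finset.sum_le_sum fun x _ => hle2 x) (by rw [hsum2]; exact hγ)
    exact ((Finset.sum_eq_sum_iff_of_le (fun x _ => hle2 x)).mp heq x (Finset.mem_univ _)).symm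
  choose φ hφ using hsur
  have hinj : Function.Injective φ := by
    intro γ γ' h
    apply Subtype.ext
    funext k
    apply Fin.ext
    rw [hφ γ k, hφ γ' k, h]
  refine (Fintype.card_le_of_injective φ hinj).trans (le_of_eq ?_)
  rw [Fintype.card_prod, Fintype.card_option, Fintype.card_fin]
  ring

/-! ### norms -/

lemma L1_one_le {n : ℕ} : L1 (1 : MvPolynomial (Fin n) ℤ) ≤ 1 := by
  have := L1_C_le (r := n) 1
  simpa using this

lemma L1_prod_le {n : ℕ} {ι : Type*} (t : Finset ι) (F : ι → MvPolynomial (Fin n) ℤ) :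
    L1 (∏ i ∈ t, F i) ≤ ∏ i ∈ t, L1 (F i) := by
  classical
  induction t using Finset.induction_on with
  | empty => simpa using L1_one_le
  | insert a t ha ih =>
    rw [Finset.prod_insert ha, Finset.prod_insert ha]
    exact (L1_mul_le _ _).trans (mul_le_mul_of_nonneg_left ih (L1_nonneg _))

lemma L1_pow_le {n : ℕ} (F : MvPolynomial (Fin n) ℤ) (k : ℕ) : L1 (F ^ k) ≤ L1 F ^ k := by
  induction k with
  | zero => simpa using L1_one_le
  | succ k ih =>
    rw [pow_succ, pow_succ]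
    exact (L1_mul_le _ _).trans (mul_le_mul_of_nonneg_right ih (L1_nonneg _))

lemma L1_natCast_le {n : ℕ} (k : ℕ) : L1 ((k : ℕ) : MvPolynomial (Fin n) ℤ) ≤ k := by
  have := L1_C_le (r := n) (k : ℤ)
  simpa using this

lemma L1_intCast_le {n : ℕ} (k : ℤ) : L1 ((k : ℤ) : MvPolynomial (Fin n) ℤ) ≤ |(k : ℝ)| := by
  have := L1_C_le (r := n) k
  simpa using this

lemma choose_le_two_pow' (a b : Fin (d + 1)) : ((Nat.choose a b : ℕ) : ℝ) ≤ 2 ^ d := by
  have h1 : Nat.choose a b ≤ 2 ^ (a : ℕ) := Nat.choose_le_two_pow _ _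
  have h2 : 2 ^ (a : ℕ) ≤ 2 ^ d := Nat.pow_le_pow_right (by norm_num) (by have := a.2; omega)
  exact_mod_cast h1.trans h2

lemma L1_tay_le {n : ℕ} (c : (Fin r → Fin (d + 1)) → ℤ) (γ : Fin r → Fin (d + 1))
    (v : Fin r → Fin n) (T : ℝ) (hT : ∀ γ, |(c γ : ℝ)| ≤ T) :
    L1 (tay c γ (fun k => (X (v k) : MvPolynomial (Fin n) ℤ))) ≤
      ((d + 1) ^ r : ℕ) * (T * (2 ^ d) ^ r) := by
  have hT0 : 0 ≤ T := (abs_nonneg _).trans (hT γ)
  refine (L1_sum_le _ _).trans ?_
  have h1 : ∀ α ∈ (Finset.univ : Finset (Fin r → Fin (d + 1))),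
      L1 (((c α : ℤ) : MvPolynomial (Fin n) ℤ) *
        ∏ k, ((Nat.choose (α k) (γ k) : ℕ) : MvPolynomial (Fin n) ℤ) *
          X (v k) ^ ((α k : ℕ) - (γ k : ℕ))) ≤ T * (2 ^ d) ^ r := by
    intro α _
    refine (L1_mul_le _ _).trans ?_
    refine mul_le_mul ((L1_intCast_le _).trans (hT α)) ?_ (L1_nonneg _) hT0
    refine (L1_prod_le _ _).trans ?_
    have h2 : ∀ k ∈ (Finset.univ : Finset (Fin r)),
        L1 (((Nat.choose (α k) (γ k) : ℕ) : MvPolynomial (Fin n) ℤ) *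
          X (v k) ^ ((α k : ℕ) - (γ k : ℕ))) ≤ 2 ^ d := by
      intro k _
      refine (L1_mul_le _ _).trans ?_
      have h3 : L1 ((X (v k) : MvPolynomial (Fin n) ℤ) ^ ((α k : ℕ) - (γ k : ℕ))) ≤ 1 :=
        (L1_pow_le _ _).trans (pow_le_one₀ (L1_nonneg _) (L1_X_le _))
      have h4 := (L1_natCast_le (n := n) (Nat.choose (α k) (γ k))).trans
        (choose_le_two_pow' (α k) (γ k))
      calc _ ≤ (2:ℝ) ^ d * 1 := mul_le_mul h4 h3 (L1_nonneg _) (by positivity)
        _ = _ := mul_one _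
    refine (Finset.prod_le_prod (fun k _ => L1_nonneg _) h2).trans ?_
    simp
  refine (Finset.sum_le_sum h1).trans ?_
  rw [Finset.sum_const, Finset.card_univ, nsmul_eq_mul]
  simp

lemma totalDegree_tay_le {n : ℕ} (c : (Fin r → Fin (d + 1)) → ℤ) (γ : Fin r → Fin (d + 1))
    (v : Fin r → Fin n) :
    (tay c γ (fun k => (X (v k) : MvPolynomial (Fin n) ℤ))).totalDegree ≤ r * d := by
  refine (totalDegree_finsetSum _ _).trans ?_
  apply Finset.sup_le
  intro α _
  refine (totalDegree_mul _ _).trans ?_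
  have h1 : (((c α : ℤ) : MvPolynomial (Fin n) ℤ)).totalDegree = 0 := by
    have : ((c α : ℤ) : MvPolynomial (Fin n) ℤ) = C (c α) := by simp
    rw [this, totalDegree_C]
  rw [h1, zero_add]
  refine (totalDegree_finsetProd _ _).trans ?_
  have h2 : ∀ k ∈ (Finset.univ : Finset (Fin r)),
      (((Nat.choose (α k) (γ k) : ℕ) : MvPolynomial (Fin n) ℤ) *
          X (v k) ^ ((α k : ℕ) - (γ k : ℕ))).totalDegree ≤ d := by
    intro k _
    refine (totalDegree_mul _ _).trans ?_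
    have h3 : ((Nat.choose (α k) (γ k) : ℕ) : MvPolynomial (Fin n) ℤ).totalDegree = 0 := by
      have : ((Nat.choose (α k) (γ k) : ℕ) : MvPolynomial (Fin n) ℤ) =
        C ((Nat.choose (α k) (γ k) : ℕ) : ℤ) := by simp
      rw [this, totalDegree_C]
    rw [h3, zero_add, totalDegree_X_pow]
    have := (α k).2
    omega
  refine (Finset.sum_le_sum h2).trans ?_
  simp

/-- Bound for a determinant. -/
lemma L1_det_le {n K : ℕ} (A : Matrix (Fin K) (Fin K) (MvPolynomial (Fin n) ℤ)) (B : ℝ)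
    (h : ∀ i j, L1 (A i j) ≤ B) : L1 A.det ≤ (K.factorial : ℝ) * B ^ K := by
  rw [Matrix.det_apply']
  refine (L1_sum_le _ _).trans ?_
  have h1 : ∀ σ ∈ (Finset.univ : Finset (Equiv.Perm (Fin K))),
      L1 (((Equiv.Perm.sign σ : ℤ) : MvPolynomial (Fin n) ℤ) * ∏ i, A (σ i) i) ≤ B ^ K := by
    intro σ _
    refine (L1_mul_le _ _).trans ?_
    have h2 : L1 (((Equiv.Perm.sign σ : ℤ) : MvPolynomial (Fin n) ℤ)) ≤ 1 := by
      refine (L1_intCast_le _).trans ?_
      rcases Int.units_eq_one_or (Equiv.Perm.sign σ) with h | h <;> rw [h] <;> simp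
    have h3 : L1 (∏ i, A (σ i) i) ≤ B ^ K := by
      refine (L1_prod_le _ _).trans ?_
      refine (Finset.prod_le_prod (fun _ _ => L1_nonneg _) (fun i _ => h (σ i) i)).trans ?_
      simp
    calc _ ≤ 1 * B ^ K := mul_le_mul h2 h3 (L1_nonneg _) zero_le_one
      _ = _ := one_mul _
  refine (Finset.sum_le_sum h1).trans ?_
  rw [Finset.sum_const, Finset.card_univ, nsmul_eq_mul, Fintype.card_perm, Fintype.card_fin]

lemma totalDegree_det_le {n K : ℕ} (A : Matrix (Fin K) (Fin K) (MvPolynomial (Fin n) ℤ)) (D : ℕ)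
    (h : ∀ i j, (A i j).totalDegree ≤ D) : A.det.totalDegree ≤ K * D := by
  rw [Matrix.det_apply']
  refine (totalDegree_finsetSum _ _).trans ?_
  apply Finset.sup_le
  intro σ _
  refine (totalDegree_mul _ _).trans ?_
  have h1 : (((Equiv.Perm.sign σ : ℤ) : MvPolynomial (Fin n) ℤ)).totalDegree = 0 := by
    have : (((Equiv.Perm.sign σ : ℤ) : ℤ) : MvPolynomial (Fin n) ℤ) =
      C ((Equiv.Perm.sign σ : ℤ)) := by simp
    rw [this, totalDegree_C]
  rw [h1, zero_add]
  refine (totalDegree_finsetProd _ _).trans ?_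
  refine (Finset.sum_le_sum (fun i _ => h (σ i) i)).trans ?_
  simp

end Pool.Agent.FewGroups
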