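import Mathlib
import Pool.Agent.FewGroups.Taylor
import Pool.Agent.FewGroups.LinAlg
import Pool.Agent.Results.MP_bbc1fa_nt.AlgIndepNearOne

/-!
# The transfer principle in one box
-/

set_option autoImplicit false

namespace Pool.Agent.FewGroups

open MvPolynomial Pool.Agent.OneClass

/-- Tuples of rationals in a box, with a polynomial which is small at their logarithms. -/
structure Mem (r d : ℕ) (X A δ η : ℝ) (P : Fin r → ℝ) where
  g : Fin r → ℚ
  c : (Fin r → Fin (d + 1)) → ℤ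
  pos : ∀ k, 0 < g k
  num_le : ∀ k, ((g k).num : ℝ) ≤ X
  den_le : ∀ k, ((g k).den : ℝ) ≤ X
  box : ∀ k, |Real.log (g k) - P k| ≤ X ^ (-δ)
  deg : ∀ α, d < ∑ k, (α k : ℕ) → c α = 0
  c_le : ∀ γ, |(c γ : ℝ)| ≤ X ^ A
  val : |ev c (fun k => Real.log (g k))| ≤ η

/-- Exponents of degree at most `d`. -/
abbrev Deg (r d : ℕ) : Type := {γ : Fin r → Fin (d + 1) // ∑ k, (γ k : ℕ) ≤ d}

/-- Generic independence of the Taylor rows. -/
def Indep {r d : ℕ} {X A δ η : ℝ} {P : Fin r → ℝ} (b : Fin r → ℚ) (K : ℕ)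
    (f : Fin K → Mem r d X A δ η P) : Prop :=
  ∃ y : Fin K → Fin r → ℝ,
    (∀ n : Fin K → Fin r → ℤ, (∏ i, ∏ k, ((f i).g k / b k) ^ n i k = 1) →
      ∑ i, ∑ k, (n i k : ℝ) * y i k = 0) ∧
    LinearIndependent ℝ (fun i => fun γ : Deg r d => tay (f i).c γ.1 (y i))

lemma den_div_le {a b : ℚ} {X : ℝ} (hb : 0 < b) (ha' : (a.den : ℝ) ≤ X)
    (hb' : (b.num : ℝ) ≤ X) (hX : 0 ≤ X) : ((a / b).den : ℝ) ≤ X ^ 2 := by
  have h1 : (a / b).den ∣ a.den * b.num.natAbs := by
    rw [div_eq_mul_inv, ← Rat.den_inv_of_ne_zero hb.ne']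
    exact Rat.mul_den_dvd _ _
  have h2 : 0 < a.den * b.num.natAbs := by
    apply Nat.mul_pos (Rat.den_pos _)
    rw [Int.natAbs_pos]
    exact (Rat.num_pos.mpr hb).ne'
  have h3 := Nat.le_of_dvd h2 h1
  have h4 : ((b.num.natAbs : ℕ) : ℝ) ≤ X := by
    have h5 : ((b.num.natAbs : ℕ) : ℝ) = (b.num : ℝ) := by
      rw [Nat.cast_natAbs, abs_of_pos (Rat.num_pos.mpr hb)]
    rw [h5]
    exact hb'
  calc ((a / b).den : ℝ) ≤ ((a.den * b.num.natAbs : ℕ) : ℝ) := by exact_mod_cast h3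
    _ = (a.den : ℝ) * (b.num.natAbs : ℝ) := by push_cast; ring
    _ ≤ X * X := mul_le_mul ha' h4 (by positivity) hX
    _ = X ^ 2 := by ring

lemma abs_tay_le {r d : ℕ} (c : (Fin r → Fin (d + 1)) → ℤ) (γ : Fin r → Fin (d + 1))
    (x : Fin r → ℝ) (T Y : ℝ) (hT : ∀ γ, |(c γ : ℝ)| ≤ T) (hY : 1 ≤ Y) (hx : ∀ k, |x k| ≤ Y) :
    |tay c γ x| ≤ ((d + 1) ^ r : ℕ) * (T * (2 ^ d * Y ^ d) ^ r) := by
  have hT0 : 0 ≤ T := (abs_nonneg _).trans (hT γ)
  rw [tay]
  refine (Finset.abs_sum_le_sum_abs _ _).trans ?_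
  have h1 : ∀ α ∈ (Finset.univ : Finset (Fin r → Fin (d + 1))),
      |((c α : ℤ) : ℝ) * ∏ k, ((Nat.choose (α k) (γ k) : ℕ) : ℝ) *
          x k ^ ((α k : ℕ) - (γ k : ℕ))| ≤ T * (2 ^ d * Y ^ d) ^ r := by
    intro α _
    rw [abs_mul, Finset.abs_prod]
    refine mul_le_mul (hT α) ?_ (Finset.prod_nonneg fun _ _ => abs_nonneg _) hT0
    have h2 : ∀ k ∈ (Finset.univ : Finset (Fin r)),
        |((Nat.choose (α k) (γ k) : ℕ) : ℝ) * x k ^ ((α k : ℕ) - (γ k : ℕ))| ≤
          2 ^ d * Y ^ d := by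
      intro k _
      rw [abs_mul, abs_pow, abs_of_nonneg (Nat.cast_nonneg _)]
      apply mul_le_mul (choose_le_two_pow' (α k) (γ k)) _ (by positivity) (by positivity)
      refine (pow_le_pow_left₀ (abs_nonneg _) (hx k) _).trans ?_
      apply pow_le_pow_right₀ hY
      have := (α k).2
      omega
    refine (Finset.prod_le_prod (fun k _ => abs_nonneg _) h2).trans ?_
    simp
  refine (Finset.sum_le_sum h1).trans ?_
  rw [Finset.sum_const, Finset.card_univ, nsmul_eq_mul]
  simp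

lemma indep_card_le {r d : ℕ} {X A δ η : ℝ} {P : Fin r → ℝ} (b : Fin r → ℚ) (K : ℕ)
    (f : Fin K → Mem r d X A δ η P) (h : Indep b K f) : K ≤ Fintype.card (Deg r d) := by
  obtain ⟨y, -, hy⟩ := h
  have := hy.fintype_card_le_finrank
  simpa using this

/-- The existence of a maximal generically independent list. -/
lemma exists_max {r d : ℕ} {X A δ η : ℝ} {P : Fin r → ℝ} (b : Fin r → ℚ) :
    ∃ K : ℕ, ∃ f : Fin K → Mem r d X A δ η P, Indep b K f ∧
      ∀ f' : Fin (K + 1) → Mem r d X A δ η P, ¬ Indep b (K + 1) f' := by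
  by_contra hcon
  push Not at hcon
  have h : ∀ K : ℕ, ∃ f : Fin K → Mem r d X A δ η P, Indep b K f := by
    intro K
    induction K with
    | zero =>
      refine ⟨Fin.elim0, Fin.elim0, fun n _ => by simp, linearIndependent_empty_type⟩
    | succ K ih =>
      obtain ⟨f, hf⟩ := ih
      exact hcon K f hf
  obtain ⟨f, hf⟩ := h (Fintype.card (Deg r d) + 1)
  have := indep_card_le _ _ _ hf
  omega

/-- Lower bound for a minor, from the theorem near `1`. -/
lemma minor_bound {r d K : ℕ} {X A δ η : ℝ} {P : Fin r → ℝ} (b : Fin r → ℚ)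
    (f : Fin K → Mem r d X A δ η P) (hf : Indep b K f)
    (hbpos : ∀ k, 0 < b k) (hbnum : ∀ k, ((b k).num : ℝ) ≤ X)
    (hbbox : ∀ k, |Real.log (b k) - P k| ≤ X ^ (-δ))
    (C H₀ A' : ℝ)
    (hmain : ∀ H : ℝ, H₀ ≤ H → ∀ (g : Fin (K * r) → ℚ) (F : MvPolynomial (Fin (K * r)) ℤ),
      (∀ k, 0 < g k) →
      (∀ k, ((g k).den : ℝ) ≤ H) →
      (∀ k, |(g k : ℝ) - 1| ≤ H ^ (-(δ / 4))) →
      F.totalDegree ≤ K * (r * d) →
      (∀ α, |((MvPolynomial.coeff α F : ℤ) : ℝ)| ≤ H ^ A') →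
      |MvPolynomial.aeval (fun k => Real.log (g k)) F| < H ^ (-C) →
      ∀ x : Fin (K * r) → ℝ,
        (∀ n : Fin (K * r) → ℤ, ∏ k, g k ^ n k = 1 → ∑ k, (n k : ℝ) * x k = 0) →
        MvPolynomial.aeval x F = 0)
    (hX1 : 1 ≤ X) (hXH : H₀ ≤ X) (hX4 : 4 ≤ X ^ (δ / 2))
    (hA' : (K.factorial : ℝ) * (((d + 1) ^ r : ℕ) * (X ^ A * (2 ^ d) ^ r)) ^ K ≤ X ^ (2 * A')) :
    ∃ s : Fin K → Deg r d,
      X ^ (-(2 * C)) ≤ |(Matrix.of fun i j => tay (f i).c (s j).1
        (fun k => Real.log ((f i).g k) - Real.log (b k))).det| := by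
  obtain ⟨y, hy1, hy2⟩ := hf
  obtain ⟨s, hs⟩ := exists_minor _ hy2
  refine ⟨s, ?_⟩
  have hXpos : 0 < X := by linarith
  have hgpos : ∀ i k, 0 < (f i).g k := fun i k => (f i).pos k
  have hgR : ∀ i k, (0:ℝ) < (f i).g k := fun i k => by exact_mod_cast hgpos i k
  have hbR : ∀ k, (0:ℝ) < b k := fun k => by exact_mod_cast hbpos k
  let e : Fin K × Fin r ≃ Fin (K * r) := finProdFinEquiv
  let G : Fin (K * r) → ℚ := fun v => (f (e.symm v).1).g (e.symm v).2 / b (e.symm v).2
  have hGe : ∀ i k, G (e (i, k)) = (f i).g k / b k := by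
    intro i k
    simp [G]
  let F : MvPolynomial (Fin (K * r)) ℤ := (Matrix.of fun i j => tay (f i).c (s j).1
    (fun k => (MvPolynomial.X (e (i, k)) : MvPolynomial (Fin (K * r)) ℤ))).det
  have hFeval : ∀ x : Fin (K * r) → ℝ, aeval x F =
      (Matrix.of fun i j => tay (f i).c (s j).1 (fun k => x (e (i, k)))).det := by
    intro x
    have h1 := RingHom.map_det ((aeval x : MvPolynomial (Fin (K * r)) ℤ →ₐ[ℤ] ℝ) :
      MvPolynomial (Fin (K * r)) ℤ →+* ℝ) (Matrix.of fun i j => tay (f i).c (s j).1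
        (fun k => (MvPolynomial.X (e (i, k)) : MvPolynomial (Fin (K * r)) ℤ)))
    have h2 : aeval x F = ((aeval x : MvPolynomial (Fin (K * r)) ℤ →ₐ[ℤ] ℝ) :
      MvPolynomial (Fin (K * r)) ℤ →+* ℝ) F := rfl
    rw [h2, h1]
    congr 1
    ext i j
    simp only [RingHom.mapMatrix_apply, Matrix.map_apply, Matrix.of_apply]
    rw [map_tay]
    congr 1
    funext k
    simp
  by_contra hlt
  rw [not_le] at hlt
  -- apply the theorem near 1
  have hH : H₀ ≤ X ^ (2:ℕ) := by nlinarith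
  have hHr : ∀ t : ℝ, (X ^ (2:ℕ) : ℝ) ^ t = X ^ (2 * t) := by
    intro t
    rw [← Real.rpow_natCast, ← Real.rpow_mul hXpos.le]
    norm_num
  have hlogG : ∀ i k, Real.log (G (e (i, k))) = Real.log ((f i).g k) - Real.log (b k) := by
    intro i k
    rw [hGe]
    push_cast
    rw [Real.log_div (hgR i k).ne' (hbR k).ne']
  have hdiff : ∀ i k, |Real.log ((f i).g k) - Real.log (b k)| ≤ 2 * X ^ (-δ) := by
    intro i k
    have h1 := (f i).box k
    have h2 := hbbox k
    rw [abs_le] at h1 h2 ⊢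
    constructor <;> linarith [h1.1, h1.2, h2.1, h2.2]
  have hδX : X ^ (-δ) = X ^ (-(δ / 2)) * X ^ (-(δ / 2)) := by
    rw [← Real.rpow_add hXpos]
    congr 1
    ring
  have hinv : X ^ (-(δ / 2)) ≤ 1 / 4 := by
    rw [Real.rpow_neg hXpos.le, one_div]
    exact inv_anti₀ (by norm_num) hX4
  have hpos' : 0 < X ^ (-(δ / 2)) := Real.rpow_pos_of_pos hXpos _
  have h0 := hmain (X ^ (2:ℕ)) hH G F
    (by
      intro v
      exact div_pos (hgpos _ _) (hbpos _))
    (by
      intro v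
      exact den_div_le (hbpos _) ((f _).den_le _) (hbnum _) hXpos.le)
    (by
      intro v
      obtain ⟨⟨i, k⟩, rfl⟩ := e.surjective v
      rw [hHr]
      have h1 : (G (e (i, k)) : ℝ) =
          Real.exp (Real.log ((f i).g k) - Real.log (b k)) := by
        rw [← hlogG, Real.exp_log]
        have : 0 < G (e (i, k)) := by rw [hGe]; exact div_pos (hgpos _ _) (hbpos _)
        exact_mod_cast this
      rw [h1]
      have h2 := hdiff i k
      have h3 : 2 * X ^ (-δ) ≤ 1 := by rw [hδX]; nlinarith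
      refine (Real.abs_exp_sub_one_le (h2.trans h3)).trans ?_
      have h4 : 2 * -(δ / 4) = -(δ / 2) := by ring
      rw [h4]
      calc 2 * |Real.log ((f i).g k) - Real.log (b k)| ≤ 2 * (2 * X ^ (-δ)) := by linarith
        _ = 4 * (X ^ (-(δ / 2)) * X ^ (-(δ / 2))) := by rw [hδX]; ring
        _ ≤ X ^ (-(δ / 2)) := by nlinarith)
    (totalDegree_det_le _ _ (fun i j => totalDegree_tay_le _ _ _))
    (by
      intro α
      rw [hHr]
      refine (coeff_le_L1 _ _).trans ((L1_det_le _ _ (fun i j => ?_)).trans hA')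
      exact L1_tay_le _ _ _ _ (f i).c_le)
    (by
      rw [hHr, hFeval]
      have h1 : 2 * -C = -(2 * C) := by ring
      rw [h1]
      have h2 : (fun i j => tay (f i).c (s j).1 (fun k => Real.log (G (e (i, k))))) =
          (fun i j => tay (f i).c (s j).1
            (fun k => Real.log ((f i).g k) - Real.log (b k))) := by
        funext i j
        congr 1
        funext k
        exact hlogG i k
      rw [h2]
      exact hlt)
    (fun v => y (e.symm v).1 (e.symm v).2)
    (by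
      intro n hn
      have h1 := hy1 (fun i k => n (e (i, k))) (by
        rw [← hn, ← Equiv.prod_comp e, Fintype.prod_prod_type]
        apply Finset.prod_congr rfl
        intro i _
        apply Finset.prod_congr rfl
        intro k _
        rw [hGe])
      rw [← h1, ← Equiv.sum_comp e, Fintype.sum_prod_type]
      apply Finset.sum_congr rfl
      intro i _
      apply Finset.sum_congr rfl
      intro k _
      rw [Equiv.symm_apply_apply])
  rw [hFeval] at h0
  apply hs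
  rw [← h0]
  congr 1
  ext i j
  simp only [Matrix.of_apply]
  congr 1
  funext k
  rw [Equiv.symm_apply_apply]

/-- The ℚ-span of the logarithms of a family of rationals. -/
noncomputable def logSpan {ι : Type*} (t : ι → ℚ) : Submodule ℚ ℝ :=
  Submodule.span ℚ (Set.range fun s => Real.log (t s))

lemma log_mem_logSpan {ι : Type*} (t : ι → ℚ) (s : ι) : Real.log (t s) ∈ logSpan t :=
  Submodule.subset_span ⟨s, rfl⟩

/-- One step: the estimate for a member, given a maximal list with a large minor. -/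
lemma step {r d K : ℕ} {X A δ η : ℝ} {P : Fin r → ℝ} (b : Fin r → ℚ)
    (f : Fin K → Mem r d X A δ η P)
    (hmax : ∀ f' : Fin (K + 1) → Mem r d X A δ η P, ¬ Indep b (K + 1) f')
    (hbpos : ∀ k, 0 < b k) (hbbox : ∀ k, |Real.log (b k) - P k| ≤ X ^ (-δ))
    (s : Fin K → Deg r d) (D : ℝ)
    (hs : D ≤ |(Matrix.of fun i j => tay (f i).c (s j).1
        (fun k => Real.log ((f i).g k) - Real.log (b k))).det|)
    (hη : 0 ≤ η) (hX2 : 2 ≤ X) (hδ : X ^ (-δ) ≤ 1)
    (q : Mem r d X A δ η P) (w : Fin r → ℝ) (hw : ∀ k, |w k| ≤ X)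
    {ι : Type*} (t : ι → ℚ) (htb : ∀ k, Real.log (b k) ∈ logSpan t)
    (htf : ∀ i k, Real.log ((f i).g k) ∈ logSpan t)
    (hall : ∀ n : Fin r → ℤ, ∑ k, (n k : ℝ) * Real.log (q.g k) ∈ logSpan t →
      ∑ k, (n k : ℝ) * w k = 0) :
    |ev q.c (fun k => Real.log (q.g k) + w k)| * D ≤
      K * (η * (K.factorial *
        (((d + 1) ^ r : ℕ) * (X ^ A * (2 ^ d * (2 * X) ^ d) ^ r)) ^ K)) := by
  have hXpos : 0 < X := by linarith
  let F : Fin (K + 1) → Mem r d X A δ η P := Fin.cons q f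
  let y : Fin (K + 1) → Fin r → ℝ := Fin.cons
    (fun k => Real.log (q.g k) - Real.log (b k) + w k)
    (fun i k => Real.log ((f i).g k) - Real.log (b k))
  let rows : Fin (K + 1) → Deg r d → ℝ := fun i γ => tay (F i).c γ.1 (y i)
  have hbR : ∀ k, (0:ℝ) < b k := fun k => by exact_mod_cast hbpos k
  have hdiff : ∀ (p : Mem r d X A δ η P) k, |Real.log (p.g k) - Real.log (b k)| ≤ 2 := by
    intro p k
    have h1 := p.box k
    have h2 := hbbox k
    rw [abs_le] at h1 h2 ⊢
    constructor <;> linarith [h1.1, h1.2, h2.1, h2.2]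
  -- the rows are dependent
  have hdep : ¬ LinearIndependent ℝ rows := by
    intro hli
    apply hmax F
    refine ⟨y, ?_, hli⟩
    intro n hn
    -- take logarithms
    have hlog : ∑ i, ∑ k, (n i k : ℝ) * (Real.log ((F i).g k) - Real.log (b k)) = 0 := by
      have h1 : Real.log ((∏ i, ∏ k, ((F i).g k / b k) ^ n i k : ℚ) : ℝ) = 0 := by
        rw [hn]; simp
      push_cast at h1
      have hFR : ∀ i k, ((F i).g k : ℝ) ≠ 0 := fun i k => by
        exact_mod_cast ((F i).pos k).ne'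
      rw [Real.log_prod (fun i _ => Finset.prod_ne_zero_iff.mpr (fun k _ =>
        zpow_ne_zero _ (div_ne_zero (hFR i k) (hbR k).ne')))] at h1
      rw [← h1]
      apply Finset.sum_congr rfl
      intro i _
      rw [Real.log_prod (fun k _ => zpow_ne_zero _ (div_ne_zero (hFR i k) (hbR k).ne'))]
      apply Finset.sum_congr rfl
      intro k _
      rw [Real.log_zpow, Real.log_div (hFR i k) (hbR k).ne']
    rw [Fin.sum_univ_succ] at hlog ⊢
    simp only [F, y, Fin.cons_zero, Fin.cons_succ] at hlog ⊢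
    have hmem : ∑ k, (n 0 k : ℝ) * Real.log (q.g k) ∈ logSpan t := by
      have h1 : ∑ k, (n 0 k : ℝ) * Real.log (q.g k) =
          ∑ k, (n 0 k : ℝ) * Real.log (b k) -
          ∑ i : Fin K, ∑ k, (n i.succ k : ℝ) * (Real.log ((f i).g k) - Real.log (b k)) := by
        have h2 : ∑ k, (n 0 k : ℝ) * (Real.log (q.g k) - Real.log (b k)) =
            ∑ k, (n 0 k : ℝ) * Real.log (q.g k) - ∑ k, (n 0 k : ℝ) * Real.log (b k) := by
          rw [← Finset.sum_sub_distrib]
          apply Finset.sum_congr rfl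
          intro k _
          ring
        linarith
      rw [h1]
      have hz : ∀ (a : ℤ) (v : ℝ), v ∈ logSpan t → (a : ℝ) * v ∈ logSpan t := by
        intro a v hv
        have h3 : (a : ℝ) * v = (a : ℚ) • v := by
          rw [Rat.smul_def]; push_cast; ring
        rw [h3]
        exact Submodule.smul_mem _ _ hv
      apply Submodule.sub_mem
      · exact Submodule.sum_mem _ (fun k _ => hz _ _ (htb k))
      · exact Submodule.sum_mem _ (fun i _ => Submodule.sum_mem _ (fun k _ =>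
          hz _ _ (Submodule.sub_mem _ (htf i k) (htb k))))
    have h4 := hall (n 0) hmem
    have h5 : ∑ k, (n 0 k : ℝ) * (Real.log (q.g k) - Real.log (b k) + w k) =
        ∑ k, (n 0 k : ℝ) * (Real.log (q.g k) - Real.log (b k)) + ∑ k, (n 0 k : ℝ) * w k := by
      rw [← Finset.sum_add_distrib]
      apply Finset.sum_congr rfl
      intro k _
      ring
    rw [h5, h4, add_zero]
    exact hlog
  -- the matrix
  let L : Fin (K + 1) → ((Deg r d → ℝ) →ₗ[ℝ] ℝ) := Fin.cons
    (∑ γ : Deg r d, (∏ k, Real.log (b k) ^ (γ.1 k : ℕ)) • LinearMap.proj γ)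
    (fun j => LinearMap.proj (s j))
  have hdet := det_eq_zero_of_not_li rows hdep L
  have hA0 : ∀ i, L 0 (rows i) = ev (F i).c (fun k => Real.log (b k) + y i k) := by
    intro i
    rw [← taylor_restrict _ (F i).deg]
    simp only [L, Fin.cons_zero, LinearMap.sum_apply, LinearMap.smul_apply, LinearMap.proj_apply,
      smul_eq_mul, rows]
  have hA1 : ∀ i (j : Fin K), L j.succ (rows i) = tay (F i).c (s j).1 (y i) := by
    intro i j
    simp only [L, Fin.cons_succ, LinearMap.proj_apply, rows]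
  have hybd : ∀ i k, |y i k| ≤ 2 * X := by
    intro i k
    refine Fin.cases ?_ (fun i => ?_) i
    · simp only [y, Fin.cons_zero]
      have h1 := hdiff q k
      have h2 := hw k
      rw [abs_le] at h1 h2 ⊢
      constructor <;> linarith [h1.1, h1.2, h2.1, h2.2]
    · simp only [y, Fin.cons_succ]
      have h1 := hdiff (f i) k
      linarith
  have hb := first_column_bound (Matrix.of fun i j => L j (rows i)) hdet η
    (((d + 1) ^ r : ℕ) * (X ^ A * (2 ^ d * (2 * X) ^ d) ^ r)) hη (by positivity)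
    (by
      intro i
      simp only [Matrix.of_apply]
      rw [hA0]
      have h1 : (fun k => Real.log (b k) + y i.succ k) = fun k => Real.log ((f i).g k) := by
        funext k
        simp only [y, Fin.cons_succ]
        ring
      rw [h1]
      simp only [F, Fin.cons_succ]
      exact (f i).val)
    (by
      intro i j
      simp only [Matrix.of_apply]
      rw [hA1]
      exact abs_tay_le _ _ _ _ _ (F i).c_le (by linarith) (hybd i))
  simp only [Matrix.of_apply] at hb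
  rw [hA0] at hb
  have h1 : (fun k => Real.log (b k) + y 0 k) = fun k => Real.log (q.g k) + w k := by
    funext k
    simp only [y, Fin.cons_zero]
    ring
  rw [h1] at hb
  have h2 : ((Matrix.of fun i j => L j (rows i)).submatrix Fin.succ Fin.succ) =
      (Matrix.of fun i j => tay (f i).c (s j).1
        (fun k => Real.log ((f i).g k) - Real.log (b k))) := by
    ext i j
    simp only [Matrix.submatrix_apply, Matrix.of_apply]
    rw [hA1]
    simp only [F, y, Fin.cons_succ]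
  rw [h2] at hb
  refine le_trans ?_ hb
  exact mul_le_mul_of_nonneg_left hs (abs_nonneg _)

/-- The transfer principle in one box. -/
theorem core (r d N : ℕ) (hN1 : 1 ≤ N) (hN : Fintype.card (Deg r d) ≤ N)
    (δ A : ℝ) (hδ : 0 < δ) :
    ∃ C X₀ : ℝ, ∀ X : ℝ, X₀ ≤ X → ∀ (η : ℝ), 0 ≤ η → ∀ P : Fin r → ℝ,
      ∃ t : Fin (N + 1) × Fin r → ℚ,
        (∀ s, 0 < t s ∧ ((t s).num : ℝ) ≤ X ∧ ((t s).den : ℝ) ≤ X) ∧
        ∀ (q : Mem r d X A δ η P) (w : Fin r → ℝ), (∀ k, |w k| ≤ X) →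
          (∀ n : Fin r → ℤ, ∑ k, (n k : ℝ) * Real.log (q.g k) ∈ logSpan t →
            ∑ k, (n k : ℝ) * w k = 0) →
          |ev q.c (fun k => Real.log (q.g k) + w k)| ≤ X ^ C * η := by
  set N₁ : ℕ := (d + 1) ^ r with hN₁
  set B : ℝ := max A 0 with hB
  have hB0 : 0 ≤ B := le_max_right _ _
  choose Cf Hf hmain using fun K : ℕ =>
    Pool.Agent.Results.MP_bbc1fa_nt.AlgIndepNearOne.result (K * r) (K * (r * d)) (δ / 4)
      ((1 + (B + 1) * N) / 2) (by positivity)
  set C₁ : ℝ := ∑ K ∈ Finset.range (N + 1), |Cf K| with hC₁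
  set H₁ : ℝ := ∑ K ∈ Finset.range (N + 1), |Hf K| with hH₁
  have hC₁' : ∀ K, K ≤ N → Cf K ≤ C₁ := fun K hK =>
    (le_abs_self _).trans (Finset.single_le_sum (f := fun K => |Cf K|) (fun _ _ => abs_nonneg _)
      (Finset.mem_range.mpr (Nat.lt_succ_of_le hK)))
  have hH₁' : ∀ K, K ≤ N → Hf K ≤ H₁ := fun K hK =>
    (le_abs_self _).trans (Finset.single_le_sum (f := fun K => |Hf K|) (fun _ _ => abs_nonneg _)
      (Finset.mem_range.mpr (Nat.lt_succ_of_le hK)))
  refine ⟨2 * C₁ + 1 + (B + d * r + 1) * N,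
    max 2 (max H₁ (max ((4:ℝ) ^ (2 / δ)) (max ((N * N.factorial : ℕ) : ℝ)
      ((N₁ * (4 ^ d) ^ r : ℕ) : ℝ)))), fun X hX η hη P => ?_⟩
  have hX2 : 2 ≤ X := (le_max_left _ _).trans hX
  have hXH : H₁ ≤ X := ((le_max_left _ _).trans (le_max_right _ _)).trans hX
  have hX3 : (4:ℝ) ^ (2 / δ) ≤ X :=
    ((le_max_left _ _).trans ((le_max_right _ _).trans (le_max_right _ _))).trans hX
  have hX4 : ((N * N.factorial : ℕ) : ℝ) ≤ X :=
    ((le_max_left _ _).trans ((le_max_right _ _).trans ((le_max_right _ _).trans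
      (le_max_right _ _)))).trans hX
  have hX5 : ((N₁ * (4 ^ d) ^ r : ℕ) : ℝ) ≤ X :=
    ((le_max_right _ _).trans ((le_max_right _ _).trans ((le_max_right _ _).trans
      (le_max_right _ _)))).trans hX
  have hX1 : 1 ≤ X := by linarith
  have hXpos : 0 < X := by linarith
  have h4 : 4 ≤ X ^ (δ / 2) := by
    have h2 : ((4:ℝ) ^ (2 / δ)) ^ (δ / 2) ≤ X ^ (δ / 2) :=
      Real.rpow_le_rpow (by positivity) hX3 (by positivity)
    rw [← Real.rpow_mul (by norm_num)] at h2
    have h3 : 2 / δ * (δ / 2) = 1 := by field_simp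
    rw [h3, Real.rpow_one] at h2
    exact h2
  have hδ1 : X ^ (-δ) ≤ 1 := Real.rpow_le_one_of_one_le_of_nonpos hX1 (by linarith)
  have hAB : X ^ A ≤ X ^ B := Real.rpow_le_rpow_of_exponent_le hX1 (le_max_left _ _)
  have hXB1 : 1 ≤ X ^ B := Real.one_le_rpow hX1 hB0
  by_cases hne : Nonempty (Mem r d X A δ η P)
  swap
  · refine ⟨fun _ => 1, fun s => ⟨one_pos, by simpa using hX1, by simpa using hX1⟩, ?_⟩
    intro q
    exact absurd ⟨q⟩ hne
  obtain ⟨p⟩ := hne
  obtain ⟨K, f, hf, hmax⟩ := exists_max (X := X) (A := A) (δ := δ) (η := η) (P := P) (d := d) p.g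
  have hKN : K ≤ N := (indep_card_le _ _ _ hf).trans hN
  obtain ⟨s, hs⟩ := minor_bound p.g f hf p.pos p.num_le p.box (Cf K) (Hf K)
    ((1 + (B + 1) * N) / 2) (hmain K) hX1 ((hH₁' K hKN).trans hXH) h4 (by
      have h1 : (N₁ : ℝ) * (2 ^ d) ^ r ≤ X := by
        refine le_trans ?_ hX5
        push_cast
        have : ((2:ℝ) ^ d) ^ r ≤ (4 ^ d) ^ r := by gcongr; norm_num
        gcongr
      have h2 : ((N₁ : ℕ) : ℝ) * (X ^ A * (2 ^ d) ^ r) ≤ X ^ (B + 1) := by
        rw [Real.rpow_add hXpos, Real.rpow_one]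
        calc (N₁ : ℝ) * (X ^ A * (2 ^ d) ^ r) = X ^ A * (N₁ * (2 ^ d) ^ r) := by ring
          _ ≤ X ^ B * X := mul_le_mul hAB h1 (by positivity) (by positivity)
      have h3 : 1 ≤ X ^ (B + 1) := Real.one_le_rpow hX1 (by linarith)
      have h5 : (K.factorial : ℝ) ≤ X := by
        refine le_trans ?_ hX4
        have : K.factorial ≤ N * N.factorial :=
          (Nat.factorial_le hKN).trans (Nat.le_mul_of_pos_left _ hN1)
        exact_mod_cast this
      have h6 : 2 * ((1 + (B + 1) * N) / 2) = 1 + (B + 1) * N := by ring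
      rw [h6, Real.rpow_add hXpos, Real.rpow_one]
      apply mul_le_mul h5 _ (by positivity) hXpos.le
      calc (((N₁ : ℕ) : ℝ) * (X ^ A * (2 ^ d) ^ r)) ^ K ≤ (X ^ (B + 1)) ^ K := by gcongr
        _ ≤ (X ^ (B + 1)) ^ N := pow_le_pow_right₀ h3 hKN
        _ = X ^ ((B + 1) * N) := by rw [← Real.rpow_natCast, ← Real.rpow_mul hXpos.le])
  refine ⟨fun s => if h : (s.1 : ℕ) < K then (f ⟨s.1, h⟩).g s.2 else p.g s.2, ?_, ?_⟩
  · intro s
    by_cases h : (s.1 : ℕ) < K
    · simp only [h, dif_pos]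
      exact ⟨(f _).pos _, (f _).num_le _, (f _).den_le _⟩
    · simp only [h, dif_neg, not_false_iff]
      exact ⟨p.pos _, p.num_le _, p.den_le _⟩
  · intro q w hw hall
    have hst := step p.g f hmax p.pos p.box s (X ^ (-(2 * Cf K))) hs hη hX2 hδ1 q w hw
      _ (fun k => by
        have h1 := log_mem_logSpan (fun s : Fin (N + 1) × Fin r =>
          if h : (s.1 : ℕ) < K then (f ⟨s.1, h⟩).g s.2 else p.g s.2) (Fin.last N, k)
        have h2 : ¬ ((Fin.last N : Fin (N + 1)) : ℕ) < K := by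
          rw [Fin.val_last]; omega
        simp only [h2, dif_neg, not_false_iff] at h1
        exact h1)
      (fun i k => by
        have h1 := log_mem_logSpan (fun s : Fin (N + 1) × Fin r =>
          if h : (s.1 : ℕ) < K then (f ⟨s.1, h⟩).g s.2 else p.g s.2)
          (⟨i, by have := i.2; omega⟩, k)
        simpa using h1) hall
    have h7 : X ^ (2 * Cf K) * X ^ (-(2 * Cf K)) = 1 := by
      rw [← Real.rpow_add hXpos]; simp
    have h8 : |ev q.c (fun k => Real.log (q.g k) + w k)| =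
        X ^ (2 * Cf K) * (|ev q.c (fun k => Real.log (q.g k) + w k)| * X ^ (-(2 * Cf K))) := by
      linear_combination (-|ev q.c (fun k => Real.log (q.g k) + w k)|) * h7
    rw [h8]
    have hE1 : (((d + 1) ^ r : ℕ) : ℝ) * (X ^ A * (2 ^ d * (2 * X) ^ d) ^ r) ≤
        X ^ (B + d * r + 1) := by
      have h9 : (2 ^ d * (2 * X) ^ d) ^ r = (4 ^ d) ^ r * (X ^ (d * r : ℕ)) := by
        rw [← mul_pow, pow_mul, ← mul_pow, ← mul_pow]
        congr 1
        congr 1
        ring
      rw [h9]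
      have h10 : X ^ (B + d * r + 1) = X ^ B * X ^ (d * r : ℕ) * X := by
        rw [Real.rpow_add hXpos, Real.rpow_add hXpos, Real.rpow_one, ← Real.rpow_natCast]
        push_cast
        rfl
      rw [h10]
      have h11 : ((N₁ : ℕ) : ℝ) * (4 ^ d) ^ r ≤ X := by
        refine le_trans (le_of_eq ?_) hX5
        push_cast
        ring
      calc (((d + 1) ^ r : ℕ) : ℝ) * (X ^ A * ((4 ^ d) ^ r * X ^ (d * r : ℕ)))
          = X ^ A * X ^ (d * r : ℕ) * (((N₁ : ℕ) : ℝ) * (4 ^ d) ^ r) := by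
            rw [← hN₁]; ring
        _ ≤ X ^ B * X ^ (d * r : ℕ) * X := by gcongr
    have hE0 : 1 ≤ X ^ (B + d * r + 1) := Real.one_le_rpow hX1 (by positivity)
    have h12 : (K : ℝ) * (η * (K.factorial *
        ((((d + 1) ^ r : ℕ) : ℝ) * (X ^ A * (2 ^ d * (2 * X) ^ d) ^ r)) ^ K)) ≤
        η * (X * X ^ ((B + d * r + 1) * N)) := by
      have h13 : ((K * K.factorial : ℕ) : ℝ) ≤ X := by
        refine le_trans ?_ hX4
        have : K * K.factorial ≤ N * N.factorial := Nat.mul_le_mul hKN (Nat.factorial_le hKN)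
        exact_mod_cast this
      have h14 : ((((d + 1) ^ r : ℕ) : ℝ) * (X ^ A * (2 ^ d * (2 * X) ^ d) ^ r)) ^ K ≤
          X ^ ((B + d * r + 1) * N) := by
        calc _ ≤ (X ^ (B + d * r + 1)) ^ K := by gcongr
          _ ≤ (X ^ (B + d * r + 1)) ^ N := pow_le_pow_right₀ hE0 hKN
          _ = X ^ ((B + d * r + 1) * N) := by rw [← Real.rpow_natCast, ← Real.rpow_mul hXpos.le]
      calc _ = η * (((K * K.factorial : ℕ) : ℝ) *
          ((((d + 1) ^ r : ℕ) : ℝ) * (X ^ A * (2 ^ d * (2 * X) ^ d) ^ r)) ^ K) := by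
            push_cast; ring
        _ ≤ _ := by gcongr
    calc _ ≤ X ^ (2 * Cf K) * (η * (X * X ^ ((B + d * r + 1) * N))) :=
          mul_le_mul_of_nonneg_left (hst.trans h12) (Real.rpow_nonneg hXpos.le _)
      _ ≤ X ^ (2 * C₁) * (η * (X * X ^ ((B + d * r + 1) * N))) := by
          have h15 : X ^ (2 * Cf K) ≤ X ^ (2 * C₁) :=
            Real.rpow_le_rpow_of_exponent_le hX1 (by linarith [hC₁' K hKN])
          gcongr
      _ = _ := by
          rw [Real.rpow_add hXpos, Real.rpow_add hXpos, Real.rpow_one]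
          ring

end Pool.Agent.FewGroups
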