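import Mathlib
import Pool.Agent.FewGroups.Core

/-!
# Bounded integral functionals on groups of rationals
-/

set_option autoImplicit false

namespace Pool.Agent.FewGroups

lemma log_comb {ι : Type*} [Fintype ι] (u : ι → ℚ) (hu : ∀ i, 0 < u i) (n : ι → ℤ) :
    Real.log ((∏ i, u i ^ n i : ℚ) : ℝ) = ∑ i, (n i : ℝ) * Real.log (u i) := by
  have h0 : ∀ i, (u i : ℝ) ≠ 0 := fun i => by exact_mod_cast (hu i).ne'
  push_cast
  rw [Real.log_prod (fun i _ => zpow_ne_zero _ (h0 i))]
  apply Finset.sum_congr rfl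
  intro i _
  rw [Real.log_zpow]

lemma padic_finset {ι : Type*} (s : Finset ι) (u : ι → ℚ) (hu : ∀ i, 0 < u i)
    (n : ι → ℤ) (p : ℕ) [Fact p.Prime] :
    padicValRat p (∏ i ∈ s, u i ^ n i) = ∑ i ∈ s, n i * padicValRat p (u i) := by
  classical
  induction s using Finset.induction_on with
  | empty => simp
  | insert a s ha ih =>
    rw [Finset.prod_insert ha, Finset.sum_insert ha, padicValRat.mul
      (zpow_ne_zero _ (hu a).ne') (Finset.prod_ne_zero_iff.mpr
        (fun i _ => zpow_ne_zero _ (hu i).ne')), ih, padicValRat.zpow]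

lemma eq_one_of_padic (q : ℚ) (hq : 0 < q) (h : ∀ p : ℕ, p.Prime → padicValRat p q = 0) :
    q = 1 := by
  have hnum : q.num.natAbs ≠ 0 := by
    rw [Int.natAbs_ne_zero]
    exact (Rat.num_pos.mpr hq).ne'
  have key : ∀ p : ℕ, p.Prime → ¬ p ∣ q.num.natAbs ∧ ¬ p ∣ q.den := by
    intro p hp
    have : Fact p.Prime := ⟨hp⟩
    have h1 := h p hp
    rw [padicValRat] at h1
    have hco := q.reduced
    constructor
    · intro hd
      have h2 : ¬ p ∣ q.den := by
        intro h3
        exact hp.one_lt.ne' (Nat.dvd_one.mp (hco ▸ Nat.dvd_gcd hd h3))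
      have h4 : padicValNat p q.den = 0 := padicValNat.eq_zero_of_not_dvd h2
      have h5 : 1 ≤ padicValNat p q.num.natAbs := one_le_padicValNat_of_dvd hnum hd
      have h6 : padicValInt p q.num = padicValNat p q.num.natAbs := rfl
      rw [h6, h4] at h1
      omega
    · intro hd
      have h2 : ¬ p ∣ q.num.natAbs := by
        intro h3
        exact hp.one_lt.ne' (Nat.dvd_one.mp (hco ▸ Nat.dvd_gcd h3 hd))
      have h4 : padicValNat p q.num.natAbs = 0 := padicValNat.eq_zero_of_not_dvd h2
      have h5 : 1 ≤ padicValNat p q.den := one_le_padicValNat_of_dvd q.den_ne_zero hd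
      have h6 : padicValInt p q.num = padicValNat p q.num.natAbs := rfl
      rw [h6, h4] at h1
      omega
  have h1 : q.num.natAbs = 1 := by
    by_contra hne
    obtain ⟨p, hp, hd⟩ := Nat.exists_prime_and_dvd hne
    exact (key p hp).1 hd
  have h2 : q.den = 1 := by
    by_contra hne
    obtain ⟨p, hp, hd⟩ := Nat.exists_prime_and_dvd hne
    exact (key p hp).2 hd
  have h3 : q.num = 1 := by
    have := Rat.num_pos.mpr hq
    omega
  have := Rat.num_div_den q
  rw [h3, h2] at this
  simpa using this.symm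

/-- The valuation vector. -/
noncomputable def val (q : ℚ) : Nat.Primes → ℚ := fun p => (padicValRat (p : ℕ) q : ℚ)

/-- Rational relations between logarithms and between valuation vectors agree. -/
lemma log_zero_iff {ι : Type*} [Fintype ι] (u : ι → ℚ) (hu : ∀ i, 0 < u i) (c : ι → ℚ) :
    ∑ i, (c i : ℝ) * Real.log (u i) = 0 ↔ ∑ i, c i • val (u i) = 0 := by
  obtain ⟨T, e, hT, he⟩ := Pool.Agent.FourExp.exists_int_scale c
  have he' : ∀ i, (e i : ℝ) = (T : ℝ) * (c i : ℝ) := fun i => by
    exact_mod_cast congrArg (Rat.cast (K := ℝ)) (he i)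
  have hT' : (T : ℝ) ≠ 0 := by exact_mod_cast hT
  have hTQ : (T : ℚ) ≠ 0 := by exact_mod_cast hT
  have h1 : ∑ i, (c i : ℝ) * Real.log (u i) = 0 ↔ ∏ i, u i ^ e i = 1 := by
    have h2 : Real.log ((∏ i, u i ^ e i : ℚ) : ℝ) = T * ∑ i, (c i : ℝ) * Real.log (u i) := by
      rw [log_comb u hu, Finset.mul_sum]
      apply Finset.sum_congr rfl
      intro i _
      rw [he']
      ring
    have hpos : (0:ℝ) < ((∏ i, u i ^ e i : ℚ) : ℝ) := by
      exact_mod_cast Finset.prod_pos (fun k _ => zpow_pos (hu k) _)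
    constructor
    · intro h
      rw [h, mul_zero] at h2
      have h5 := Real.eq_one_of_pos_of_log_eq_zero hpos h2
      exact_mod_cast h5
    · intro h
      rw [h, Rat.cast_one, Real.log_one] at h2
      exact (mul_eq_zero.mp h2.symm).resolve_left hT'
  rw [h1]
  constructor
  · intro h
    funext p
    have : Fact (p : ℕ).Prime := ⟨p.2⟩
    have h2 := padic_finset Finset.univ u hu e (p : ℕ)
    rw [h, padicValRat.one] at h2
    have h3 : (T : ℚ) * ∑ i, c i * (padicValRat (p : ℕ) (u i) : ℚ) = 0 := by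
      rw [Finset.mul_sum]
      have h4 : ((∑ i, e i * padicValRat (p : ℕ) (u i) : ℤ) : ℚ) = 0 := by
        rw [← h2]; simp
      push_cast at h4
      rw [← h4]
      apply Finset.sum_congr rfl
      intro i _
      rw [he]
      ring
    have h5 := (mul_eq_zero.mp h3).resolve_left hTQ
    simp only [Finset.sum_apply, Pi.smul_apply, smul_eq_mul, val, Pi.zero_apply]
    exact h5
  · intro h
    apply eq_one_of_padic _ (Finset.prod_pos (fun k _ => zpow_pos (hu k) _))
    intro p hp
    have : Fact p.Prime := ⟨hp⟩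
    rw [padic_finset Finset.univ u hu e p]
    have h2 : ∑ i, c i * (padicValRat p (u i) : ℚ) = 0 := by
      have h20 : ∀ P : Nat.Primes, ∑ i, c i * (padicValRat (P : ℕ) (u i) : ℚ) = 0 := by
        intro P
        have h21 : (∑ i, c i • val (u i)) P = 0 := by rw [h]; rfl
        rw [Finset.sum_apply] at h21
        exact h21
      exact h20 ⟨p, hp⟩
    have h3 : ((∑ i, e i * padicValRat p (u i) : ℤ) : ℚ) =
        T * ∑ i, c i * (padicValRat p (u i) : ℚ) := by
      push_cast
      rw [Finset.mul_sum]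
      apply Finset.sum_congr rfl
      intro i _
      rw [he]
      ring
    rw [h2, mul_zero] at h3
    exact_mod_cast h3

/-- Membership in the span of logarithms, in terms of valuations. -/
lemma mem_logSpan_iff {ι κ : Type*} [Fintype ι] [Fintype κ] (t : ι → ℚ) (ht : ∀ s, 0 < t s)
    (g : κ → ℚ) (hg : ∀ k, 0 < g k) (n : κ → ℤ) :
    ∑ k, (n k : ℝ) * Real.log (g k) ∈ logSpan t ↔
      ∑ k, (n k : ℚ) • val (g k) ∈ Submodule.span ℚ (Set.range fun s => val (t s)) := by
  rw [logSpan, Submodule.mem_span_range_iff_exists_fun, Submodule.mem_span_range_iff_exists_fun]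
  have key : ∀ q : ι → ℚ, ∑ s, q s • Real.log (t s) = ∑ k, (n k : ℝ) * Real.log (g k) ↔
      ∑ s, q s • val (t s) = ∑ k, (n k : ℚ) • val (g k) := by
    intro q
    have h := log_zero_iff (Sum.elim t g) (by rintro (s | k); exacts [ht s, hg k])
      (Sum.elim (fun s => -q s) (fun k => (n k : ℚ)))
    simp only [Fintype.sum_sum_type, Sum.elim_inl, Sum.elim_inr] at h
    constructor
    · intro h1
      have h2 := h.mp (by
        push_cast
        simp only [neg_mul, Finset.sum_neg_distrib]
        rw [← h1]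
        simp [Rat.smul_def])
      simp only [neg_smul, Finset.sum_neg_distrib] at h2
      rw [neg_add_eq_zero] at h2
      exact h2
    · intro h1
      have h2 := h.mpr (by
        simp only [neg_smul, Finset.sum_neg_distrib]
        rw [h1]
        simp)
      push_cast at h2
      simp only [neg_mul, Finset.sum_neg_distrib] at h2
      rw [neg_add_eq_zero] at h2
      simpa [Rat.smul_def] using h2
  constructor
  · rintro ⟨q, hq⟩
    exact ⟨q, (key q).mp hq⟩
  · rintro ⟨q, hq⟩
    exact ⟨q, (key q).mpr hq⟩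

lemma padicValNat_le_log (p n : ℕ) (hp : p.Prime) (hn : n ≠ 0) (X : ℝ) (hX : (n : ℝ) ≤ X) :
    ((padicValNat p n : ℕ) : ℝ) ≤ Real.log X / Real.log 2 := by
  have hlog2 : 0 < Real.log 2 := Real.log_pos (by norm_num)
  have h1 : p ^ (padicValNat p n) ∣ n := pow_padicValNat_dvd
  have h2 := Nat.le_of_dvd (Nat.pos_of_ne_zero hn) h1
  have h3 : (2:ℕ) ^ (padicValNat p n) ≤ n := (Nat.pow_le_pow_left hp.two_le _).trans h2
  have h4 : (2:ℝ) ^ (padicValNat p n) ≤ X := le_trans (by exact_mod_cast h3) hX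
  rw [le_div_iff₀ hlog2, ← Real.log_pow]
  exact Real.log_le_log (by positivity) h4

lemma padic_bound (p : ℕ) (hp : p.Prime) (q : ℚ) (hq : 0 < q) (X : ℝ)
    (h1 : (q.num : ℝ) ≤ X) (h2 : (q.den : ℝ) ≤ X) :
    |((padicValRat p q : ℤ) : ℝ)| ≤ Real.log X / Real.log 2 := by
  have hnum : q.num.natAbs ≠ 0 := by
    rw [Int.natAbs_ne_zero]
    exact (Rat.num_pos.mpr hq).ne'
  have h3 : ((q.num.natAbs : ℕ) : ℝ) ≤ X := by
    rw [Nat.cast_natAbs, abs_of_pos (Rat.num_pos.mpr hq)]
    exact h1
  have h4 := padicValNat_le_log p _ hp hnum X h3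
  have h5 := padicValNat_le_log p _ hp q.den_ne_zero X h2
  have h6 : ((padicValRat p q : ℤ) : ℝ) = (padicValNat p q.num.natAbs : ℝ) -
      (padicValNat p q.den : ℝ) := by
    rw [padicValRat, Int.cast_sub, Int.cast_natCast, Int.cast_natCast]
    rfl
  rw [h6, abs_le]
  have h7 : (0:ℝ) ≤ (padicValNat p q.num.natAbs : ℝ) := Nat.cast_nonneg _
  have h8 : (0:ℝ) ≤ (padicValNat p q.den : ℝ) := Nat.cast_nonneg _
  constructor <;> linarith

/-- A bounded integral functional which vanishes on `logSpan t` but not at a given element. -/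
lemma exists_functional {R r : ℕ} (t : Fin R → ℚ) (ht : ∀ s, 0 < t s)
    (g : Fin r → ℚ) (hg : ∀ k, 0 < g k) (X : ℝ) (hX : 2 ≤ X)
    (ht1 : ∀ s, ((t s).num : ℝ) ≤ X) (ht2 : ∀ s, ((t s).den : ℝ) ≤ X)
    (hg1 : ∀ k, ((g k).num : ℝ) ≤ X) (hg2 : ∀ k, ((g k).den : ℝ) ≤ X)
    (e : Fin r → ℤ) (he : ∑ k, (e k : ℝ) * Real.log (g k) ∉ logSpan t) :
    ∃ w : Fin r → ℤ,
      (∀ k, |(w k : ℝ)| ≤ ((R + 1).factorial : ℝ) * (Real.log X / Real.log 2) ^ (R + 1)) ∧
      (∀ n : Fin r → ℤ, ∑ k, (n k : ℝ) * Real.log (g k) ∈ logSpan t →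
        ∑ k, n k * w k = 0) ∧
      ∑ k, e k * w k ≠ 0 := by
  classical
  have hlog2 : 0 < Real.log 2 := Real.log_pos (by norm_num)
  have hΛ : 1 ≤ Real.log X / Real.log 2 := by
    rw [le_div_iff₀ hlog2, one_mul]
    exact Real.log_le_log (by norm_num) hX
  rw [mem_logSpan_iff t ht g hg e] at he
  obtain ⟨b, hb1, hb2, hb3⟩ := exists_linearIndependent ℚ (Set.range fun s => val (t s))
  have hbfin : b.Finite := (Set.finite_range _).subset hb1
  let _ : Fintype b := hbfin.fintype
  have hcard : Fintype.card b ≤ R := by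
    have h1 : Function.Surjective
        (fun s : {s : Fin R // val (t s) ∈ b} => (⟨val (t s), s.2⟩ : b)) := by
      rintro ⟨x, hx⟩
      obtain ⟨s, hs⟩ := hb1 hx
      simp only at hs
      exact ⟨⟨s, by rw [hs]; exact hx⟩, by simp [hs]⟩
    refine (Fintype.card_le_of_surjective _ h1).trans ?_
    have := Fintype.card_subtype_le (fun s : Fin R => val (t s) ∈ b)
    simpa using this
  set K := Fintype.card b with hK
  let eb : Fin K ≃ b := (Fintype.equivFin b).symm
  have hpre : ∀ j : Fin K, ∃ s, val (t s) = (eb j : Nat.Primes → ℚ) := fun j => hb1 (eb j).2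
  choose s hs using hpre
  have hli : LinearIndependent ℚ (fun j => val (t (s j))) := by
    have h1 : (fun j => val (t (s j))) = (fun x : b => (x : Nat.Primes → ℚ)) ∘ eb := by
      funext j
      rw [Function.comp, hs j]
    rw [h1]
    exact hb3.comp _ eb.injective
  have hspan : Submodule.span ℚ (Set.range fun j => val (t (s j))) =
      Submodule.span ℚ (Set.range fun s => val (t s)) := by
    rw [← hb2]
    congr 1
    ext x
    constructor
    · rintro ⟨j, rfl⟩
      simp only
      rw [hs j]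
      exact (eb j).2
    · intro hx
      exact ⟨eb.symm ⟨x, hx⟩, by simp [hs]⟩
  rw [← hspan] at he
  have hli2 : LinearIndependent ℚ (Fin.cons (∑ k, (e k : ℚ) • val (g k))
      (fun j => val (t (s j))) : Fin (K + 1) → (Nat.Primes → ℚ)) :=
    linearIndependent_finCons.mpr ⟨hli, he⟩
  obtain ⟨ℓ, hℓ⟩ := exists_minor _ hli2
  -- the matrix with a variable first row
  let M : (Nat.Primes → ℤ) → Matrix (Fin (K + 1)) (Fin (K + 1)) ℤ := fun x =>
    Matrix.of (Fin.cons (fun j => x (ℓ j))
      (fun i j => padicValRat (ℓ j : ℕ) (t (s i))) : Fin (K + 1) → Fin (K + 1) → ℤ)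
  let vz : ℚ → Nat.Primes → ℤ := fun q p => padicValRat (p : ℕ) q
  let cof : Fin (K + 1) → ℤ := fun j => (-1) ^ (j : ℕ) *
    (Matrix.of fun (i : Fin K) (j' : Fin K) =>
      padicValRat (ℓ (j.succAbove j') : ℕ) (t (s i))).det
  have hM : ∀ x, (M x).det = ∑ j, x (ℓ j) * cof j := by
    intro x
    rw [Matrix.det_succ_row_zero]
    apply Finset.sum_congr rfl
    intro j _
    have h1 : (M x).submatrix Fin.succ j.succAbove = (Matrix.of fun (i : Fin K) (j' : Fin K) =>
      padicValRat (ℓ (j.succAbove j') : ℕ) (t (s i))) := by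
      ext i j'
      simp [M]
    rw [h1]
    simp only [M, cof, Matrix.of_apply, Fin.cons_zero]
    ring
  -- the functional over ℚ
  let ψ : (Nat.Primes → ℚ) →ₗ[ℚ] ℚ := ∑ j, ((cof j : ℤ) : ℚ) • LinearMap.proj (ℓ j)
  have hψ : ∀ x, ψ x = ∑ j, (cof j : ℚ) * x (ℓ j) := by
    intro x
    simp [ψ]
  have hψv : ∀ q, ψ (val q) = (((M (vz q)).det : ℤ) : ℚ) := by
    intro q
    rw [hψ, hM]
    push_cast
    apply Finset.sum_congr rfl
    intro j _
    simp only [val, vz]
    ring
  have hψ0 : ∀ i, ψ (val (t (s i))) = 0 := by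
    intro i
    rw [hψv]
    have h1 : (M (vz (t (s i)))).det = 0 := by
      apply Matrix.det_zero_of_row_eq (i := 0) (j := i.succ) (Fin.succ_ne_zero i).symm
      funext j
      simp [M, vz]
    rw [h1]; simp
  have hψspan : ∀ x ∈ Submodule.span ℚ (Set.range fun s => val (t s)), ψ x = 0 := by
    intro x hx
    rw [← hspan] at hx
    have h1 : Submodule.span ℚ (Set.range fun j => val (t (s j))) ≤ LinearMap.ker ψ := by
      rw [Submodule.span_le]
      rintro x ⟨j, rfl⟩
      exact hψ0 j
    exact h1 hx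
  have hcomb : ∀ n : Fin r → ℤ, ψ (∑ k, (n k : ℚ) • val (g k)) =
      ((∑ k, n k * (M (vz (g k))).det : ℤ) : ℚ) := by
    intro n
    rw [map_sum]
    simp only [Int.cast_sum, Int.cast_mul]
    apply Finset.sum_congr rfl
    intro k _
    rw [map_smul, hψv, smul_eq_mul]
  refine ⟨fun k => (M (vz (g k))).det, ?_, ?_, ?_⟩
  · intro k
    have h1 : (((M (vz (g k))).det : ℤ) : ℝ) =
        ((M (vz (g k))).map (fun z : ℤ => (z : ℝ))).det := by
      have := RingHom.map_det (Int.castRingHom ℝ) (M (vz (g k)))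
      simpa using this
    rw [h1]
    have h2 := Matrix.det_le (A := (M (vz (g k))).map (fun z : ℤ => (z : ℝ)))
      (abv := (IsAbsoluteValue.toAbsoluteValue (abs : ℝ → ℝ)))
      (x := Real.log X / Real.log 2) (by
        intro i j
        simp only [Matrix.map_apply, IsAbsoluteValue.toAbsoluteValue_apply]
        refine Fin.cases ?_ (fun i => ?_) i
        · simp only [M, Matrix.of_apply, Fin.cons_zero, vz]
          exact padic_bound _ (ℓ j).2 _ (hg k) X (hg1 k) (hg2 k)
        · simp only [M, Matrix.of_apply, Fin.cons_succ]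
          exact padic_bound _ (ℓ j).2 _ (ht _) X (ht1 _) (ht2 _))
    simp only [IsAbsoluteValue.toAbsoluteValue_apply, Fintype.card_fin, nsmul_eq_mul] at h2
    refine h2.trans ?_
    have h3 : ((K + 1).factorial : ℝ) ≤ ((R + 1).factorial : ℝ) := by
      exact_mod_cast Nat.factorial_le (by omega)
    have h4 : (Real.log X / Real.log 2) ^ (K + 1) ≤ (Real.log X / Real.log 2) ^ (R + 1) :=
      pow_le_pow_right₀ hΛ (by omega)
    exact mul_le_mul h3 h4 (by positivity) (by positivity)
  · intro n hn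
    rw [mem_logSpan_iff t ht g hg n] at hn
    have h1 := hψspan _ hn
    rw [hcomb] at h1
    exact_mod_cast h1
  · intro h
    have h1 := hcomb e
    rw [h, Int.cast_zero, hψ] at h1
    apply hℓ
    -- expand the determinant
    rw [Matrix.det_succ_row_zero]
    rw [← h1]
    apply Finset.sum_congr rfl
    intro j _
    simp only [Matrix.of_apply, Fin.cons_zero, cof]
    have h2 : ((Matrix.of fun (i j : Fin (K + 1)) =>
        (Fin.cons (∑ k, (e k : ℚ) • val (g k)) (fun j => val (t (s j))) :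
          Fin (K + 1) → Nat.Primes → ℚ) i (ℓ j)).submatrix Fin.succ j.succAbove).det =
        (((Matrix.of fun (i : Fin K) (j' : Fin K) =>
          padicValRat (ℓ (j.succAbove j') : ℕ) (t (s i))).det : ℤ) : ℚ) := by
      have h3 := RingHom.map_det (Int.castRingHom ℚ) (Matrix.of fun (i : Fin K) (j' : Fin K) =>
          padicValRat (ℓ (j.succAbove j') : ℕ) (t (s i)))
      rw [eq_intCast] at h3
      rw [h3]
      congr 1
    rw [h2]
    push_cast
    ring

end Pool.Agent.FewGroups
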