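import Mathlib

/-!
# Near-degeneracy of a real matrix nearly orthogonal to an isotropic integer matrix
-/

set_option autoImplicit false

namespace Pool.Agent.FewGroups

lemma near_degenerate (M : Matrix (Fin 2) (Fin 2) ℝ) (V : Fin 2 → Fin 2 → ℤ)
    (hV : ∃ i j, V i j ≠ 0) (hdet : V 0 0 * V 1 1 - V 0 1 * V 1 0 = 0)
    (T θ κ : ℝ) (hT : 0 ≤ T) (hκ : 0 ≤ κ)
    (hVT : ∀ i j, |(V i j : ℝ)| ≤ T) (hMT : ∀ i j, |M i j| ≤ T)
    (hMθ : |M.det| ≤ θ)
    (hp : |(V 0 0 : ℝ) * M 1 1 + V 1 1 * M 0 0 - V 0 1 * M 1 0 - V 1 0 * M 0 1| ≤ θ)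
    (hκθ : 2 * T ^ 2 * θ ≤ κ ^ 2) :
    ∃ w : Fin 2 → ℤ, w ≠ 0 ∧ (∀ i, |(w i : ℝ)| ≤ T) ∧
      ((∀ i, |∑ j, M i j * (w j : ℝ)| ≤ κ) ∨ (∀ j, |∑ i, (w i : ℝ) * M i j| ≤ κ)) := by
  obtain ⟨i₀, j₀, h0⟩ := hV
  have hθ : 0 ≤ θ := (abs_nonneg _).trans hMθ
  set u : Fin 2 → ℤ := fun i => V i j₀ with hu
  set v : Fin 2 → ℤ := fun j => V i₀ j with hv
  have hrank : ∀ i j, V i j * V i₀ j₀ = u i * v j := by
    intro i j
    simp only [hu, hv]
    fin_cases i <;> fin_cases j <;> fin_cases i₀ <;> fin_cases j₀ <;> simp <;> nlinarith [hdet]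
  have hrankR : ∀ i j, (V i j : ℝ) * (V i₀ j₀ : ℝ) = (u i : ℝ) * (v j : ℝ) := by
    intro i j
    exact_mod_cast hrank i j
  have huT : ∀ i, |(u i : ℝ)| ≤ T := fun i => hVT i j₀
  have hvT : ∀ j, |(v j : ℝ)| ≤ T := fun j => hVT i₀ j
  set P : ℝ := (V 0 0 : ℝ) * M 1 1 + V 1 1 * M 0 0 - V 0 1 * M 1 0 - V 1 0 * M 0 1 with hP
  have hkey : ∀ i j, ((u 1 : ℝ) * M 0 j - (u 0 : ℝ) * M 1 j) *
      ((v 1 : ℝ) * M i 0 - (v 0 : ℝ) * M i 1) =
      M i j * ((V i₀ j₀ : ℝ) * P) - (u i : ℝ) * (v j : ℝ) * M.det := by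
    intro i j
    have e : (V i₀ j₀ : ℝ) * P = (u 0 : ℝ) * v 0 * M 1 1 + (u 1 : ℝ) * v 1 * M 0 0 -
        (u 0 : ℝ) * v 1 * M 1 0 - (u 1 : ℝ) * v 0 * M 0 1 := by
      rw [hP, ← hrankR 0 0, ← hrankR 1 1, ← hrankR 0 1, ← hrankR 1 0]
      ring
    rw [e, Matrix.det_fin_two]
    fin_cases i <;> fin_cases j <;> simp only [Fin.zero_eta, Fin.mk_one, Fin.isValue] <;> ring
  have hbd : ∀ i j, |((u 1 : ℝ) * M 0 j - (u 0 : ℝ) * M 1 j)| *
      |((v 1 : ℝ) * M i 0 - (v 0 : ℝ) * M i 1)| ≤ κ ^ 2 := by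
    intro i j
    rw [← abs_mul, hkey]
    refine (abs_sub _ _).trans ?_
    have h1 : |M i j * ((V i₀ j₀ : ℝ) * P)| ≤ T * (T * θ) := by
      rw [abs_mul, abs_mul]
      exact mul_le_mul (hMT _ _) (mul_le_mul (hVT _ _) hp (abs_nonneg _) hT)
        (by positivity) hT
    have h2 : |(u i : ℝ) * (v j : ℝ) * M.det| ≤ T * T * θ := by
      rw [abs_mul, abs_mul]
      exact mul_le_mul (mul_le_mul (huT _) (hvT _) (abs_nonneg _) hT) hMθ (abs_nonneg _)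
        (by positivity)
    nlinarith
  by_cases hall : ∀ j, |((u 1 : ℝ) * M 0 j - (u 0 : ℝ) * M 1 j)| ≤ κ
  · refine ⟨![u 1, -u 0], ?_, ?_, Or.inr ?_⟩
    · intro h
      have h1 := congrFun h 0
      have h2 := congrFun h 1
      simp at h1 h2
      apply h0
      fin_cases i₀
      · exact h2
      · exact h1
    · intro i
      fin_cases i
      · simpa using huT 1
      · simpa using huT 0
    · intro j
      have h1 := hall j
      simp only [Fin.sum_univ_two, Matrix.cons_val_zero, Matrix.cons_val_one]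
      push_cast
      have h2 : (u 1 : ℝ) * M 0 j + -(u 0 : ℝ) * M 1 j = (u 1 : ℝ) * M 0 j - (u 0 : ℝ) * M 1 j := by
        ring
      rw [h2]
      exact h1
  · push Not at hall
    obtain ⟨j, hj⟩ := hall
    refine ⟨![v 1, -v 0], ?_, ?_, Or.inl ?_⟩
    · intro h
      have h1 := congrFun h 0
      have h2 := congrFun h 1
      simp at h1 h2
      apply h0
      fin_cases j₀
      · exact h2
      · exact h1
    · intro i
      fin_cases i
      · simpa using hvT 1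
      · simpa using hvT 0
    · intro i
      have h1 := hbd i j
      simp only [Fin.sum_univ_two, Matrix.cons_val_zero, Matrix.cons_val_one]
      push_cast
      have h2 : M i 0 * (v 1 : ℝ) + M i 1 * -(v 0 : ℝ) = (v 1 : ℝ) * M i 0 - (v 0 : ℝ) * M i 1 := by
        ring
      rw [h2]
      by_contra hlt
      rw [not_le] at hlt
      have h3 : κ * κ < |((u 1 : ℝ) * M 0 j - (u 0 : ℝ) * M 1 j)| *
        |((v 1 : ℝ) * M i 0 - (v 0 : ℝ) * M i 1)| := by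
        apply mul_lt_mul'' hj hlt hκ hκ
      nlinarith

end Pool.Agent.FewGroups
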