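import Mathlib
import Pool.Agent.FewGroups.Core

/-!
# Quadratic and linear forms as coefficient functions
-/

set_option autoImplicit false

namespace Pool.Agent.FewGroups

variable {r : ℕ}

/-- The exponent of `x_k x_l`. -/
def pairIdx (k l : Fin r) : Fin r → Fin (2 + 1) := fun x =>
  ⟨(if x = k then 1 else 0) + (if x = l then 1 else 0), by split_ifs <;> omega⟩

/-- The exponent of `x_k`. -/
def oneIdx (k : Fin r) : Fin r → Fin (2 + 1) := fun x =>
  ⟨if x = k then 1 else 0, by split_ifs <;> omega⟩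

/-- Coefficients of a quadratic form. -/
def cquad (q : Fin r → Fin r → ℤ) : (Fin r → Fin (2 + 1)) → ℤ := fun γ =>
  ∑ k, ∑ l, if γ = pairIdx k l then q k l else 0

/-- Coefficients of a linear form. -/
def clin (n : Fin r → ℤ) : (Fin r → Fin (2 + 1)) → ℤ := fun γ =>
  ∑ k, if γ = oneIdx k then n k else 0

lemma prod_oneIdx (k : Fin r) (x : Fin r → ℝ) : ∏ j, x j ^ (oneIdx k j : ℕ) = x k := by
  have h : ∀ j, x j ^ (oneIdx k j : ℕ) = if j = k then x j else 1 := by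
    intro j
    by_cases hj : j = k
    · simp [oneIdx, hj]
    · simp [oneIdx, hj]
  simp only [h]
  rw [Finset.prod_ite_eq' Finset.univ k]
  simp

lemma prod_pairIdx (k l : Fin r) (x : Fin r → ℝ) :
    ∏ j, x j ^ (pairIdx k l j : ℕ) = x k * x l := by
  have h : ∀ j, x j ^ (pairIdx k l j : ℕ) = x j ^ (oneIdx k j : ℕ) * x j ^ (oneIdx l j : ℕ) := by
    intro j
    rw [← pow_add]
    rfl
  simp only [h]
  rw [Finset.prod_mul_distrib, prod_oneIdx, prod_oneIdx]

lemma ev_clin (n : Fin r → ℤ) (x : Fin r → ℝ) : ev (clin n) x = ∑ k, (n k : ℝ) * x k := by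
  simp only [ev, clin]
  push_cast
  simp only [Finset.sum_mul]
  rw [Finset.sum_comm]
  apply Finset.sum_congr rfl
  intro k _
  rw [Finset.sum_eq_single (oneIdx k)]
  · rw [if_pos rfl, prod_oneIdx]
  · intro γ _ hγ
    rw [if_neg hγ, zero_mul]
  · intro h; exact absurd (Finset.mem_univ _) h

lemma ev_cquad (q : Fin r → Fin r → ℤ) (x : Fin r → ℝ) :
    ev (cquad q) x = ∑ k, ∑ l, (q k l : ℝ) * (x k * x l) := by
  simp only [ev, cquad]
  push_cast
  simp only [Finset.sum_mul]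
  rw [Finset.sum_comm]
  apply Finset.sum_congr rfl
  intro k _
  rw [Finset.sum_comm]
  apply Finset.sum_congr rfl
  intro l _
  rw [Finset.sum_eq_single (pairIdx k l)]
  · rw [if_pos rfl, prod_pairIdx]
  · intro γ _ hγ
    rw [if_neg hγ, zero_mul]
  · intro h; exact absurd (Finset.mem_univ _) h

lemma clin_le (n : Fin r → ℤ) (T : ℝ) (hT : 0 ≤ T) (h : ∀ k, |(n k : ℝ)| ≤ T) (γ) :
    |((clin n γ : ℤ) : ℝ)| ≤ r * T := by
  simp only [clin]
  push_cast
  refine (Finset.abs_sum_le_sum_abs _ _).trans ?_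
  have h1 : ∀ k ∈ (Finset.univ : Finset (Fin r)),
      |(if γ = oneIdx k then ((n k : ℤ) : ℝ) else 0)| ≤ T := by
    intro k _
    split_ifs
    · exact h k
    · simpa using hT
  refine (Finset.sum_le_sum h1).trans ?_
  simp

lemma cquad_le (q : Fin r → Fin r → ℤ) (T : ℝ) (hT : 0 ≤ T) (h : ∀ k l, |(q k l : ℝ)| ≤ T) (γ) :
    |((cquad q γ : ℤ) : ℝ)| ≤ r * (r * T) := by
  simp only [cquad]
  push_cast
  refine (Finset.abs_sum_le_sum_abs _ _).trans ?_
  have h1 : ∀ k ∈ (Finset.univ : Finset (Fin r)),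
      |∑ l, (if γ = pairIdx k l then ((q k l : ℤ) : ℝ) else 0)| ≤ r * T := by
    intro k _
    refine (Finset.abs_sum_le_sum_abs _ _).trans ?_
    have h2 : ∀ l ∈ (Finset.univ : Finset (Fin r)),
        |(if γ = pairIdx k l then ((q k l : ℤ) : ℝ) else 0)| ≤ T := by
      intro l _
      split_ifs
      · exact h k l
      · simpa using hT
    refine (Finset.sum_le_sum h2).trans ?_
    simp
  refine (Finset.sum_le_sum h1).trans ?_
  simp

lemma sum_oneIdx (k : Fin r) : ∑ j, (oneIdx k j : ℕ) = 1 := by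
  have h : ∀ j, (oneIdx k j : ℕ) = if j = k then 1 else 0 := fun j => rfl
  simp only [h]
  simp

lemma sum_pairIdx (k l : Fin r) : ∑ j, (pairIdx k l j : ℕ) = 2 := by
  have h : ∀ j, (pairIdx k l j : ℕ) = (oneIdx k j : ℕ) + (oneIdx l j : ℕ) := fun j => rfl
  simp only [h]
  rw [Finset.sum_add_distrib, sum_oneIdx, sum_oneIdx]

lemma clin_deg (n : Fin r → ℤ) (α : Fin r → Fin (2 + 1)) (hα : 2 < ∑ k, (α k : ℕ)) :
    clin n α = 0 := by
  rw [clin]
  apply Finset.sum_eq_zero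
  intro k _
  rw [if_neg]
  rintro rfl
  rw [sum_oneIdx] at hα
  omega

lemma cquad_deg (q : Fin r → Fin r → ℤ) (α : Fin r → Fin (2 + 1)) (hα : 2 < ∑ k, (α k : ℕ)) :
    cquad q α = 0 := by
  rw [cquad]
  apply Finset.sum_eq_zero
  intro k _
  apply Finset.sum_eq_zero
  intro l _
  rw [if_neg]
  rintro rfl
  rw [sum_pairIdx] at hα
  omega

/-- The determinant form. -/
def detForm (m : Fin 2 → Fin 2 → Fin r → ℤ) : Fin r → Fin r → ℤ := fun k l =>
  m 0 0 k * m 1 1 l - m 0 1 k * m 1 0 l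

lemma ev_detForm (m : Fin 2 → Fin 2 → Fin r → ℤ) (x : Fin r → ℝ)
    (M : Matrix (Fin 2) (Fin 2) ℝ) (hM : ∀ i j, M i j = ∑ k, (m i j k : ℝ) * x k) :
    ev (cquad (detForm m)) x = M.det := by
  rw [ev_cquad, Matrix.det_fin_two, hM, hM, hM, hM, Finset.sum_mul_sum, Finset.sum_mul_sum,
    ← Finset.sum_sub_distrib]
  apply Finset.sum_congr rfl
  intro k _
  rw [← Finset.sum_sub_distrib]
  apply Finset.sum_congr rfl
  intro l _
  simp only [detForm]
  push_cast
  ring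

lemma detForm_le (m : Fin 2 → Fin 2 → Fin r → ℤ) (T : ℝ)
    (h : ∀ i j k, |(m i j k : ℝ)| ≤ T) (k l : Fin r) :
    |((detForm m k l : ℤ) : ℝ)| ≤ 2 * T ^ 2 := by
  simp only [detForm]
  push_cast
  have h1 : |(m 0 0 k : ℝ) * (m 1 1 l : ℝ)| ≤ T * T := by
    rw [abs_mul]
    exact mul_le_mul (h _ _ _) (h _ _ _) (abs_nonneg _) ((abs_nonneg _).trans (h 0 0 k))
  have h2 : |(m 0 1 k : ℝ) * (m 1 0 l : ℝ)| ≤ T * T := by
    rw [abs_mul]
    exact mul_le_mul (h _ _ _) (h _ _ _) (abs_nonneg _) ((abs_nonneg _).trans (h 0 0 k))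
  refine (abs_sub _ _).trans ?_
  nlinarith

end Pool.Agent.FewGroups
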