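import Mathlib
import Pool.Agent.FewGroups.Functional
import Pool.Agent.FewGroups.Quad
import Pool.Agent.FewGroups.NearDeg
import Pool.Agent.OneClass.Witt

/-!
# The four exponentials statement in one box
-/

set_option autoImplicit false

namespace Pool.Agent.FewGroups

open Pool.Agent.OneClass

lemma abs_log_le {q : ℚ} (hq : 0 < q) {X : ℝ} (h1 : (q.num : ℝ) ≤ X)
    (h2 : (q.den : ℝ) ≤ X) : |Real.log q| ≤ Real.log X := by
  have hnum : (1:ℝ) ≤ (q.num : ℝ) := by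
    have := Rat.num_pos.mpr hq
    exact_mod_cast this
  have hden : (1:ℝ) ≤ (q.den : ℝ) := by
    exact_mod_cast Rat.den_pos q
  have h3 : (q : ℝ) = (q.num : ℝ) / (q.den : ℝ) := by
    exact_mod_cast (Rat.num_div_den q).symm
  rw [h3, Real.log_div (by positivity) (by positivity)]
  have h4 := Real.log_nonneg hnum
  have h5 := Real.log_nonneg hden
  have h6 := Real.log_le_log (by positivity) h1
  have h7 := Real.log_le_log (by positivity) h2
  rw [abs_le]
  constructor <;> linarith only [h4, h7, h5, h6]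

lemma abs_comb_le {r : ℕ} (n : Fin r → ℤ) (x : Fin r → ℝ) (T Y : ℝ) (hT : 0 ≤ T)
    (hn : ∀ k, |(n k : ℝ)| ≤ T) (hx : ∀ k, |x k| ≤ Y) : |∑ k, (n k : ℝ) * x k| ≤ r * (T * Y) := by
  refine (Finset.abs_sum_le_sum_abs _ _).trans ?_
  have h1 : ∀ k ∈ (Finset.univ : Finset (Fin r)), |(n k : ℝ) * x k| ≤ T * Y := by
    intro k _
    rw [abs_mul]
    exact mul_le_mul (hn k) (hx k) (abs_nonneg _) hT
  refine (Finset.sum_le_sum h1).trans ?_
  simp

theorem box (r : ℕ) (A B δ : ℝ) (hδ : 0 < δ) :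
    ∃ C X₀ : ℝ, ∀ X : ℝ, X₀ ≤ X → ∀ P : Fin r → ℝ,
      ∃ t : Fin (3 * (((r + 1) ^ 2 + 1) * r)) → ℚ,
      (∀ s, 0 < t s ∧ ((t s).num : ℝ) ≤ X ∧ ((t s).den : ℝ) ≤ X) ∧
      ∀ (g : Fin r → ℚ), (∀ k, 0 < g k) → (∀ k, ((g k).num : ℝ) ≤ X) →
        (∀ k, ((g k).den : ℝ) ≤ X) → (∀ k, |Real.log (g k) - P k| ≤ X ^ (-δ)) →
        ∀ (m : Fin 2 → Fin 2 → Fin r → ℤ) (M : Matrix (Fin 2) (Fin 2) ℝ),
        (∀ i j k, |(m i j k : ℝ)| ≤ X ^ A) →
        (∀ i j, M i j = ∑ k, (m i j k : ℝ) * Real.log (g k)) →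
        RowsIndep M → RowsIndep M.transpose →
        (∀ i j, M i j ∈ logSpan t) ∨ X ^ (-C) ≤ |M.det| ∨
        (M.det ≠ 0 ∧ ∃ w : Fin 2 → ℤ, w ≠ 0 ∧ (∀ i, |(w i : ℝ)| ≤ X ^ C) ∧
          ((∀ i, |∑ j, M i j * (w j : ℝ)| ≤ X ^ (-B) ∧ ∑ j, M i j * (w j : ℝ) ∈ logSpan t) ∨
           (∀ j, |∑ i, (w i : ℝ) * M i j| ≤ X ^ (-B) ∧
              ∑ i, (w i : ℝ) * M i j ∈ logSpan t))) := by
  set a : ℝ := max A 0 with ha
  have ha0 : 0 ≤ a := le_max_right _ _
  obtain ⟨C₀, X₁, hcore⟩ := core r 2 ((r + 1) ^ 2) (Nat.one_le_pow _ _ (Nat.succ_pos r))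
    (card_deg_two r) δ (2 * a + 4) hδ
  set c₀ : ℝ := max C₀ 0 with hc₀
  have hc0 : 0 ≤ c₀ := le_max_right _ _
  set b : ℝ := max B 0 + c₀ + 2 with hb
  have hBb : B ≤ b := by
    have : B ≤ max B 0 := le_max_left _ _
    linarith only [hc0, this]
  have hb2 : c₀ + 2 ≤ b := by
    have : 0 ≤ max B 0 := le_max_right _ _
    linarith only [this]
  set C : ℝ := 2 * b + 2 * a + 5 + c₀ with hC
  -- the factorial condition holds eventually
  set R : ℕ := 3 * (((r + 1) ^ 2 + 1) * r) with hR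
  have hlog2 : 0 < Real.log 2 := Real.log_pos (by norm_num)
  have hev : ∀ᶠ X : ℝ in Filter.atTop,
      ((R + 1).factorial : ℝ) * (Real.log X / Real.log 2) ^ (R + 1) ≤ X := by
    have h1 := Real.isLittleO_pow_log_id_atTop (n := R + 1)
    have hc : 0 < (((R + 1).factorial : ℝ) / (Real.log 2) ^ (R + 1))⁻¹ := by positivity
    have h2 := h1.bound hc
    filter_upwards [h2, Filter.eventually_ge_atTop (1:ℝ)] with X hX hX1
    simp only [id, Real.norm_eq_abs] at hX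
    rw [abs_of_nonneg (by positivity : (0:ℝ) ≤ X), abs_pow] at hX
    rw [abs_of_nonneg (Real.log_nonneg hX1)] at hX
    rw [div_pow]
    have h3 : ((R + 1).factorial : ℝ) * (Real.log X ^ (R + 1) / Real.log 2 ^ (R + 1)) =
        (((R + 1).factorial : ℝ) / (Real.log 2) ^ (R + 1)) * Real.log X ^ (R + 1) := by
      field_simp
    rw [h3]
    calc _ ≤ (((R + 1).factorial : ℝ) / (Real.log 2) ^ (R + 1)) *
        ((((R + 1).factorial : ℝ) / (Real.log 2) ^ (R + 1))⁻¹ * X) := by gcongr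
      _ = X := by field_simp
  obtain ⟨X₂, hX₂⟩ := Filter.eventually_atTop.mp hev
  refine ⟨C, max X₁ (max X₂ (2 * (r:ℝ) ^ 2 + r + 4)), fun X hX P => ?_⟩
  have hXX₁ : X₁ ≤ X := (le_max_left _ _).trans hX
  have hXX₂ : X₂ ≤ X := ((le_max_left _ _).trans (le_max_right _ _)).trans hX
  have hXr : 2 * (r:ℝ) ^ 2 + r + 4 ≤ X := ((le_max_right _ _).trans (le_max_right _ _)).trans hX
  have hfac := hX₂ X hXX₂
  have hr0 : (0:ℝ) ≤ r := Nat.cast_nonneg r
  have hX4 : 4 ≤ X := by nlinarith only [hXr]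
  have hrX : (r:ℝ) ≤ X := by nlinarith only [hXr]
  have hr2X : 2 * (r:ℝ) ^ 2 ≤ X := by linarith only [hXr]
  have hX1 : 1 ≤ X := by linarith only [hX4]
  have hX2 : 2 ≤ X := by linarith only [hX4]
  have hXpos : 0 < X := by linarith only [hX4]
  obtain ⟨t0, ht0, hcore0⟩ := hcore X hXX₁ 0 le_rfl P
  obtain ⟨t1, ht1, hcore1⟩ := hcore X hXX₁ (X ^ (-b)) (Real.rpow_nonneg hXpos.le _) P
  obtain ⟨t2, ht2, hcore2⟩ := hcore X hXX₁ (X ^ (-C)) (Real.rpow_nonneg hXpos.le _) P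
  let E : Fin 3 × (Fin ((r + 1) ^ 2 + 1) × Fin r) ≃ Fin R :=
    ((Equiv.refl _).prodCongr finProdFinEquiv).trans finProdFinEquiv
  let tt : Fin 3 → (Fin ((r + 1) ^ 2 + 1) × Fin r) → ℚ := ![t0, t1, t2]
  let t : Fin R → ℚ := fun s => tt (E.symm s).1 (E.symm s).2
  have htt : ∀ i q, 0 < tt i q ∧ ((tt i q).num : ℝ) ≤ X ∧ ((tt i q).den : ℝ) ≤ X := by
    intro i q
    fin_cases i
    · exact ht0 q
    · exact ht1 q
    · exact ht2 q
  have ht : ∀ s, 0 < t s ∧ ((t s).num : ℝ) ≤ X ∧ ((t s).den : ℝ) ≤ X := fun s => htt _ _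
  have hspan : ∀ i, logSpan (tt i) ≤ logSpan t := by
    intro i
    rw [logSpan, Submodule.span_le]
    rintro x ⟨q, rfl⟩
    have h1 := log_mem_logSpan t (E (i, q))
    simp only [t, Equiv.symm_apply_apply] at h1
    exact h1
  refine ⟨t, ht, ?_⟩
  intro g hg hg1 hg2 hbox m M hm hM hrow hcol
  by_cases hall : ∀ i j, M i j ∈ logSpan t
  · exact Or.inl hall
  right
  push Not at hall
  obtain ⟨i₁, j₁, hij⟩ := hall
  have hma : ∀ i j k, |(m i j k : ℝ)| ≤ X ^ a := fun i j k =>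
    (hm i j k).trans (Real.rpow_le_rpow_of_exponent_le hX1 (le_max_left _ _))
  have hXa : 1 ≤ X ^ a := Real.one_le_rpow hX1 ha0
  have hloggX : ∀ k, |Real.log (g k)| ≤ X := fun k =>
    (abs_log_le (hg k) (hg1 k) (hg2 k)).trans (Real.log_le_self hXpos.le)
  -- functionals
  have hfun : ∀ n : Fin r → ℤ, ∑ k, (n k : ℝ) * Real.log (g k) ∉ logSpan t →
      ∃ w : Fin r → ℤ, (∀ k, |(w k : ℝ)| ≤ X) ∧
      (∀ n : Fin r → ℤ, ∑ k, (n k : ℝ) * Real.log (g k) ∈ logSpan t → ∑ k, n k * w k = 0) ∧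
      ∑ k, n k * w k ≠ 0 := by
    intro n hn
    obtain ⟨w, hw1, hw2, hw3⟩ := exists_functional t (fun s => (ht s).1) g hg X hX2
      (fun s => (ht s).2.1) (fun s => (ht s).2.2) hg1 hg2 n hn
    exact ⟨w, fun k => (hw1 k).trans hfac, hw2, hw3⟩
  -- the transfer principle for forms
  have htrans : ∀ (i : Fin 3) (η : ℝ), 
      (∀ (q : Mem r 2 X (2 * a + 4) δ η P) (w : Fin r → ℝ), (∀ k, |w k| ≤ X) →
          (∀ n : Fin r → ℤ, ∑ k, (n k : ℝ) * Real.log (q.g k) ∈ logSpan (tt i) →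
            ∑ k, (n k : ℝ) * w k = 0) →
          |ev q.c (fun k => Real.log (q.g k) + w k)| ≤ X ^ C₀ * η) →
      ∀ c : (Fin r → Fin (2 + 1)) → ℤ, (∀ α, 2 < ∑ k, (α k : ℕ) → c α = 0) →
      (∀ γ, |(c γ : ℝ)| ≤ X ^ (2 * a + 4)) →
      |ev c (fun k => Real.log (g k))| ≤ η →
      ∀ w : Fin r → ℤ, (∀ k, |(w k : ℝ)| ≤ X) →
      (∀ n : Fin r → ℤ, ∑ k, (n k : ℝ) * Real.log (g k) ∈ logSpan t → ∑ k, n k * w k = 0) →
      |ev c (fun k => Real.log (g k) + (w k : ℝ))| ≤ X ^ c₀ * η ∧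
      |ev c (fun k => Real.log (g k) + -(w k : ℝ))| ≤ X ^ c₀ * η := by
    intro i η hc c hcd hcb hval w hw hann
    have hη : 0 ≤ η := (abs_nonneg _).trans hval
    let q : Mem r 2 X (2 * a + 4) δ η P := ⟨g, c, hg, hg1, hg2, hbox, hcd, hcb, hval⟩
    have hle : X ^ C₀ * η ≤ X ^ c₀ * η :=
      mul_le_mul_of_nonneg_right
        (Real.rpow_le_rpow_of_exponent_le hX1 (le_max_left _ _)) hη
    have hann' : ∀ n : Fin r → ℤ, ∑ k, (n k : ℝ) * Real.log (g k) ∈ logSpan (tt i) →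
        ∑ k, (n k : ℝ) * (w k : ℝ) = 0 := by
      intro n hn
      have := hann n (hspan i hn)
      exact_mod_cast this
    constructor
    · exact (hc q (fun k => (w k : ℝ)) hw hann').trans hle
    · refine (hc q (fun k => -(w k : ℝ)) (fun k => by rw [abs_neg]; exact hw k)
        (fun n hn => ?_)).trans hle
      have h1 := hann' n hn
      have h2 : ∑ k, (n k : ℝ) * -(w k : ℝ) = -∑ k, (n k : ℝ) * (w k : ℝ) := by
        rw [← Finset.sum_neg_distrib]
        apply Finset.sum_congr rfl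
        intro k _
        ring
      rw [h2, h1, neg_zero]
  have htr0 := htrans 0 0 hcore0
  have htr1 := htrans 1 _ hcore1
  have htr2 := htrans 2 _ hcore2
  -- the matrix of values of the functional
  obtain ⟨w, hw1, hw2, hw3⟩ := hfun (m i₁ j₁) (by rw [← hM]; exact hij)
  set V : Fin 2 → Fin 2 → ℤ := fun i j => ∑ k, m i j k * w k with hV
  have hVne : V i₁ j₁ ≠ 0 := hw3
  have hcdet : ∀ γ, |((cquad (detForm m) γ : ℤ) : ℝ)| ≤ X ^ (2 * a + 4) := by
    intro γ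
    refine (cquad_le _ (2 * (X ^ a) ^ 2) (by positivity)
      (fun k l => detForm_le m (X ^ a) hma k l) γ).trans ?_
    have h1 : X ^ (2 * a + 4) = (X ^ a) ^ 2 * (X * X * X * X) := by
      rw [Real.rpow_add hXpos, mul_comm 2 a, Real.rpow_mul hXpos.le]
      have h3 : X ^ (4:ℝ) = X ^ (4:ℕ) := by exact_mod_cast Real.rpow_natCast X 4
      have h4 : (X ^ a) ^ (2:ℝ) = (X ^ a) ^ (2:ℕ) := by exact_mod_cast Real.rpow_natCast (X ^ a) 2
      rw [h3, h4]
      ring
    rw [h1]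
    have h5 : (r:ℝ) * (r * (2 * (X ^ a) ^ 2)) = (X ^ a) ^ 2 * (2 * r ^ 2) := by ring
    rw [h5]
    apply mul_le_mul_of_nonneg_left _ (by positivity)
    have h6 : 1 ≤ X * X := by nlinarith only [hXr]
    have h7 : 1 ≤ X * X * X := by nlinarith only [hXr, h6]
    nlinarith only [hXr, h6]
  have hMdet : ev (cquad (detForm m)) (fun k => Real.log (g k)) = M.det :=
    ev_detForm m _ M hM
  have hplus : ev (cquad (detForm m)) (fun k => Real.log (g k) + (w k : ℝ)) =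
      (M 0 0 + V 0 0) * (M 1 1 + V 1 1) - (M 0 1 + V 0 1) * (M 1 0 + V 1 0) := by
    rw [ev_detForm m _ (Matrix.of fun i j => M i j + (V i j : ℝ)), Matrix.det_fin_two]
    · rfl
    · intro i j
      simp only [Matrix.of_apply, hM, hV]
      push_cast
      rw [← Finset.sum_add_distrib]
      apply Finset.sum_congr rfl
      intro k _
      ring
  have hminus : ev (cquad (detForm m)) (fun k => Real.log (g k) + -(w k : ℝ)) =
      (M 0 0 - V 0 0) * (M 1 1 - V 1 1) - (M 0 1 - V 0 1) * (M 1 0 - V 1 0) := by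
    rw [ev_detForm m _ (Matrix.of fun i j => M i j - (V i j : ℝ)), Matrix.det_fin_two]
    · rfl
    · intro i j
      simp only [Matrix.of_apply, hM, hV]
      push_cast
      rw [← Finset.sum_sub_distrib]
      apply Finset.sum_congr rfl
      intro k _
      ring
  have hMd := Matrix.det_fin_two M
  -- exact counterexamples are excluded
  have hdet0 : M.det ≠ 0 := by
    intro hd0
    obtain ⟨h1, h2⟩ := htr0 _ (cquad_deg _) hcdet (by rw [hMdet, hd0]; simp) w hw1 hw2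
    rw [mul_zero] at h1 h2
    have h3 := abs_nonpos_iff.mp h1
    have h4 := abs_nonpos_iff.mp h2
    rw [hplus] at h3
    rw [hminus] at h4
    have h5 : (Matrix.of fun i j => (V i j : ℚ)) = 0 := by
      apply isotropic_zero M hd0 hrow hcol
      · rw [Matrix.det_fin_two]
        simp only [Matrix.of_apply]
        have h6 : ((V 0 0 : ℝ)) * V 1 1 - V 0 1 * V 1 0 = 0 := by
          rw [hMd] at hd0
          linarith only [hd0, h3, h4]
        exact_mod_cast h6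
      · simp only [pol, toR, Matrix.map_apply, Matrix.of_apply]
        push_cast
        linarith only [h3, h4]
    have h7 := congrFun (congrFun h5 i₁) j₁
    simp only [Matrix.of_apply, Matrix.zero_apply] at h7
    exact hVne (by exact_mod_cast h7)
  by_cases hlarge : X ^ (-C) ≤ |M.det|
  · exact Or.inl hlarge
  right
  refine ⟨hdet0, ?_⟩
  rw [not_le] at hlarge
  obtain ⟨h1, h2⟩ := htr2 _ (cquad_deg _) hcdet (by rw [hMdet]; exact hlarge.le) w hw1 hw2
  rw [hplus] at h1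
  rw [hminus] at h2
  set θ : ℝ := X ^ c₀ * X ^ (-C) with hθ
  have hXc : 1 ≤ X ^ c₀ := Real.one_le_rpow hX1 hc0
  have hXC0 : 0 ≤ X ^ (-C) := Real.rpow_nonneg hXpos.le _
  have hCθ : X ^ (-C) ≤ θ := by rw [hθ]; nlinarith only [hXc, hXC0]
  have hθ' : θ = X ^ (-(2 * b + 2 * a + 5)) := by
    rw [hθ, ← Real.rpow_add hXpos]
    congr 1
    rw [hC]
    ring
  have hθsmall : θ ≤ 1 / 16 := by
    have hm4 : X ^ (-(2 * b + 2 * a + 5)) ≤ X ^ (-(2:ℝ)) :=
      Real.rpow_le_rpow_of_exponent_le hX1 (by linarith only [ha0, hc0, hb2])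
    rw [hθ']
    refine hm4.trans ?_
    rw [Real.rpow_neg hXpos.le, one_div]
    apply inv_anti₀ (by norm_num)
    have h3 : X ^ (2:ℝ) = X ^ (2:ℕ) := by exact_mod_cast Real.rpow_natCast X 2
    rw [h3]
    nlinarith only [hXr]
  have hdetV : V 0 0 * V 1 1 - V 0 1 * V 1 0 = 0 := by
    have h3 : |((V 0 0 * V 1 1 - V 0 1 * V 1 0 : ℤ) : ℝ)| < 1 := by
      push_cast
      rw [hMd] at hlarge
      rw [abs_lt] at hlarge
      rw [abs_le] at h1 h2
      rw [abs_lt]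
      constructor <;> linarith only [hlarge, h1, h2, hCθ, hθsmall, h1.1, h1.2, h2.1, h2.2, hlarge.1, hlarge.2]
    have h4 : |(V 0 0 * V 1 1 - V 0 1 * V 1 0 : ℤ)| < 1 := by exact_mod_cast h3
    exact Int.abs_lt_one_iff.mp h4
  have hpolV : |(V 0 0 : ℝ) * M 1 1 + V 1 1 * M 0 0 - V 0 1 * M 1 0 - V 1 0 * M 0 1| ≤ θ := by
    rw [abs_le] at h1 h2 ⊢
    constructor <;> linarith only [h1, h2, h1.1, h1.2, h2.1, h2.2]
  set T : ℝ := X ^ (a + 2) with hT
  have hT0 : 0 ≤ T := Real.rpow_nonneg hXpos.le _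
  have hTa : T = X ^ a * (X * X) := by
    rw [hT, Real.rpow_add hXpos]
    have h3 : X ^ (2:ℝ) = X ^ (2:ℕ) := by exact_mod_cast Real.rpow_natCast X 2
    rw [h3]
    ring
  have hrT : (r:ℝ) * (X ^ a * X) ≤ T := by
    rw [hTa]
    calc (r:ℝ) * (X ^ a * X) ≤ X * (X ^ a * X) := by gcongr
      _ = _ := by ring
  have hVT : ∀ i j, |(V i j : ℝ)| ≤ T := by
    intro i j
    simp only [hV]
    push_cast
    exact (abs_comb_le (m i j) (fun k => (w k : ℝ)) (X ^ a) X (by positivity) (hma i j)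
      hw1).trans hrT
  have hMT : ∀ i j, |M i j| ≤ T := by
    intro i j
    rw [hM]
    exact (abs_comb_le (m i j) (fun k => Real.log (g k)) (X ^ a) X (by positivity) (hma i j)
      hloggX).trans hrT
  obtain ⟨w', hw'0, hw'T, hw'⟩ := near_degenerate M V ⟨i₁, j₁, hVne⟩ hdetV T θ (X ^ (-b)) hT0
    (Real.rpow_nonneg hXpos.le _) hVT hMT (hlarge.le.trans hCθ) hpolV (by
      have h3 : (X ^ (-b)) ^ 2 = X ^ (-(2 * b)) := by
        rw [← Real.rpow_natCast, ← Real.rpow_mul hXpos.le]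
        congr 1
        push_cast
        ring
      have h4 : T ^ 2 * θ = X ^ (-(2 * b) - 1) := by
        rw [hθ', hT, ← Real.rpow_natCast, ← Real.rpow_mul hXpos.le, ← Real.rpow_add hXpos]
        congr 1
        push_cast
        ring
      rw [h3, mul_assoc, h4]
      have h5 : X ^ (-(2 * b)) = X ^ (-(2 * b) - 1) * X := by
        conv_rhs => rw [← Real.rpow_one X]
        rw [← Real.rpow_mul hXpos.le, ← Real.rpow_add hXpos]
        congr 1
        ring
      rw [h5]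
      have h6 : 0 ≤ X ^ (-(2 * b) - 1) := Real.rpow_nonneg hXpos.le _
      nlinarith only [hXr, h3, h5, h6])
  -- small combinations lie in the span
  have hsmall : ∀ n : Fin r → ℤ, (∀ k, |(n k : ℝ)| ≤ 2 * (T * X ^ a)) →
      |∑ k, (n k : ℝ) * Real.log (g k)| ≤ X ^ (-b) →
      ∑ k, (n k : ℝ) * Real.log (g k) ∈ logSpan t := by
    intro n hn hz
    by_contra hnot
    obtain ⟨w₂, h21, h22, h23⟩ := hfun n hnot
    have hclin : ∀ γ, |((clin n γ : ℤ) : ℝ)| ≤ X ^ (2 * a + 4) := by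
      intro γ
      refine (clin_le n _ (by positivity) hn γ).trans ?_
      have h3 : X ^ (2 * a + 4) = (X ^ a * X ^ a) * (X * X) * (X * X) := by
        have h31 : (2 * a + 4) = a + a + 4 := by ring
        rw [h31, Real.rpow_add hXpos, Real.rpow_add hXpos]
        have h32 : X ^ (4:ℝ) = X ^ (4:ℕ) := by exact_mod_cast Real.rpow_natCast X 4
        rw [h32]
        ring
      rw [h3, hTa]
      have h4 : (r:ℝ) * (2 * (X ^ a * (X * X) * X ^ a)) = (X ^ a * X ^ a) * (X * X) * (2 * r) := by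
        ring
      rw [h4]
      apply mul_le_mul_of_nonneg_left _ (by positivity)
      nlinarith only [hXr]
    obtain ⟨h3, -⟩ := htr1 _ (clin_deg _) hclin (by rw [ev_clin]; exact hz) w₂ h21 h22
    rw [ev_clin] at h3
    have h4 : ∑ k, (n k : ℝ) * (Real.log (g k) + (w₂ k : ℝ)) =
        ∑ k, (n k : ℝ) * Real.log (g k) + ((∑ k, n k * w₂ k : ℤ) : ℝ) := by
      push_cast
      rw [← Finset.sum_add_distrib]
      apply Finset.sum_congr rfl
      intro k _
      ring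
    rw [h4] at h3
    have h5 : X ^ c₀ * X ^ (-b) ≤ 1 / 16 := by
      rw [← Real.rpow_add hXpos]
      have hm4 : X ^ (c₀ + -b) ≤ X ^ (-(2:ℝ)) :=
        Real.rpow_le_rpow_of_exponent_le hX1 (by linarith only [hb2])
      refine hm4.trans ?_
      rw [Real.rpow_neg hXpos.le, one_div]
      apply inv_anti₀ (by norm_num)
      have h3 : X ^ (2:ℝ) = X ^ (2:ℕ) := by exact_mod_cast Real.rpow_natCast X 2
      rw [h3]
      nlinarith only [hXr]
    have h6 : X ^ (-b) ≤ 1 / 16 := by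
      have : X ^ (-b) ≤ X ^ c₀ * X ^ (-b) := by
        have h7 : 0 ≤ X ^ (-b) := Real.rpow_nonneg hXpos.le _
        nlinarith only [hXc, h7]
      linarith only [h5, this]
    have h8 : |((∑ k, n k * w₂ k : ℤ) : ℝ)| < 1 := by
      rw [abs_le] at h3 hz
      rw [abs_lt]
      constructor <;> linarith only [hz, h3, h5, h6, h3.1, h3.2, hz.1, hz.2]
    have h9 : |(∑ k, n k * w₂ k : ℤ)| < 1 := by exact_mod_cast h8
    exact h23 (Int.abs_lt_one_iff.mp h9)
  have hbB : X ^ (-b) ≤ X ^ (-B) := Real.rpow_le_rpow_of_exponent_le hX1 (by linarith only [hBb])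
  have hTC : T ≤ X ^ C := Real.rpow_le_rpow_of_exponent_le hX1 (by rw [hC]; linarith only [ha0, hc0, hb2])
  refine ⟨w', hw'0, fun i => (hw'T i).trans hTC, ?_⟩
  have hcomb2 : ∀ x y : ℤ, ∀ n n' : Fin r → ℤ, |(x : ℝ)| ≤ T → |(y : ℝ)| ≤ T →
      (∀ k, |(n k : ℝ)| ≤ X ^ a) → (∀ k, |(n' k : ℝ)| ≤ X ^ a) → ∀ k,
      |((n k * x + n' k * y : ℤ) : ℝ)| ≤ 2 * (T * X ^ a) := by
    intro x y n n' hx hy hn hn' k
    push_cast
    refine (abs_add_le _ _).trans ?_
    rw [abs_mul, abs_mul]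
    have h3 := mul_le_mul (hn k) hx (abs_nonneg _) (by positivity)
    have h4 := mul_le_mul (hn' k) hy (abs_nonneg _) (by positivity)
    linarith only [h3, h4]
  rcases hw' with hw' | hw'
  · left
    intro i
    refine ⟨(hw' i).trans hbB, ?_⟩
    have h3 : ∑ j, M i j * (w' j : ℝ) =
        ∑ k, ((m i 0 k * w' 0 + m i 1 k * w' 1 : ℤ) : ℝ) * Real.log (g k) := by
      rw [Fin.sum_univ_two, hM, hM, Finset.sum_mul, Finset.sum_mul, ← Finset.sum_add_distrib]
      apply Finset.sum_congr rfl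
      intro k _
      push_cast
      ring
    rw [h3]
    apply hsmall
    · exact hcomb2 _ _ _ _ (hw'T 0) (hw'T 1) (hma i 0) (hma i 1)
    · rw [← h3]
      exact hw' i
  · right
    intro j
    refine ⟨(hw' j).trans hbB, ?_⟩
    have h3 : ∑ i, (w' i : ℝ) * M i j =
        ∑ k, ((m 0 j k * w' 0 + m 1 j k * w' 1 : ℤ) : ℝ) * Real.log (g k) := by
      rw [Fin.sum_univ_two, hM, hM, Finset.mul_sum, Finset.mul_sum, ← Finset.sum_add_distrib]
      apply Finset.sum_congr rfl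
      intro k _
      push_cast
      ring
    rw [h3]
    apply hsmall
    · exact hcomb2 _ _ _ _ (hw'T 0) (hw'T 1) (hma 0 j) (hma 1 j)
    · rw [← h3]
      exact hw' j

end Pool.Agent.FewGroups
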