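import Mathlib
import Pool.Agent.FewGroups.Box

set_option autoImplicit false

namespace Pool.Agent.FewGroups

open Pool.Agent.OneClass Filter

lemma rowsIndep_of (M : Matrix (Fin 2) (Fin 2) ℝ)
    (h : LinearIndependent ℚ (fun i : Fin 2 => fun j : Fin 2 => M i j)) : RowsIndep M := by
  intro u v huv
  rw [Fintype.linearIndependent_iff] at h
  have h1 := h ![u, v] (by
    funext j
    simp only [Fin.sum_univ_two, Pi.add_apply, Pi.smul_apply, Matrix.cons_val_zero,
      Matrix.cons_val_one, Rat.smul_def, Pi.zero_apply]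
    exact huv j)
  exact ⟨h1 0, h1 1⟩

lemma card_primeFactors_le (n : ℕ) (hn : n ≠ 0) (X : ℝ) (hX : (n : ℝ) ≤ X) :
    ((n.primeFactors.card : ℕ) : ℝ) ≤ Real.log X / Real.log 2 := by
  have hlog2 : 0 < Real.log 2 := Real.log_pos (by norm_num)
  have h1 : 2 ^ n.primeFactors.card ≤ n := by
    calc 2 ^ n.primeFactors.card = ∏ _p ∈ n.primeFactors, 2 := by simp
      _ ≤ ∏ p ∈ n.primeFactors, p := Finset.prod_le_prod (fun _ _ => by norm_num)
          (fun p hp => (Nat.prime_of_mem_primeFactors hp).two_le)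
      _ ≤ n := Nat.le_of_dvd (Nat.pos_of_ne_zero hn) (Nat.prod_primeFactors_dvd n)
  have h4 : (2:ℝ) ^ n.primeFactors.card ≤ X := le_trans (by exact_mod_cast h1) hX
  rw [le_div_iff₀ hlog2, ← Real.log_pow]
  exact Real.log_le_log (by positivity) h4

lemma mem_primeFactors_of_padic (p : ℕ) (hp : p.Prime) (q : ℚ) (hq : 0 < q)
    (h : padicValRat p q ≠ 0) : p ∈ q.num.natAbs.primeFactors ∪ q.den.primeFactors := by
  have hnum : q.num.natAbs ≠ 0 := by
    rw [Int.natAbs_ne_zero]
    exact (Rat.num_pos.mpr hq).ne'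
  rw [Finset.mem_union, Nat.mem_primeFactors, Nat.mem_primeFactors]
  by_contra hcon
  push Not at hcon
  apply h
  have h1 : ¬ p ∣ q.num.natAbs := fun hd => hnum (hcon.1 hp hd)
  have h2 : ¬ p ∣ q.den := fun hd => q.den_ne_zero (hcon.2 hp hd)
  have h3 : padicValInt p q.num = 0 := padicValNat.eq_zero_of_not_dvd h1
  have h4 : padicValNat p q.den = 0 := padicValNat.eq_zero_of_not_dvd h2
  rw [padicValRat, h3, h4]
  simp

/-- Primes of a rational whose logarithm lies in the span. -/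
lemma padic_of_mem {R : ℕ} (t : Fin R → ℚ) (ht : ∀ s, 0 < t s) (q : ℚ) (hq : 0 < q)
    (h : Real.log q ∈ logSpan t) (p : ℕ) (hp : p.Prime)
    (hpt : ∀ s, padicValRat p (t s) = 0) : padicValRat p q = 0 := by
  have h1 := (mem_logSpan_iff t ht (fun _ : Unit => q) (fun _ => hq) (fun _ => 1)).mp
    (by simpa using h)
  simp only [Finset.univ_unique, Finset.sum_singleton, Int.cast_one, one_smul] at h1
  rw [Submodule.mem_span_range_iff_exists_fun] at h1
  obtain ⟨c, hc⟩ := h1
  have h2 : ∀ P : Nat.Primes, (P : ℕ) = p → (padicValRat (P : ℕ) q : ℚ) = 0 := by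
    intro P hP
    have h3 : (∑ s, c s • val (t s)) P = val q P := by rw [hc]
    rw [Finset.sum_apply] at h3
    change _ = (padicValRat (P : ℕ) q : ℚ) at h3
    rw [← h3]
    apply Finset.sum_eq_zero
    intro s _
    have h4 : val (t s) P = (padicValRat (P : ℕ) (t s) : ℚ) := rfl
    rw [Pi.smul_apply, h4, hP, hpt s]
    simp
  exact_mod_cast h2 ⟨p, hp⟩ rfl

/-- The statement for all boxes together, with subspaces of bounded dimension. -/
theorem few (r : ℕ) (A B ε : ℝ) (hε : 0 < ε) :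
    ∃ C X₀ : ℝ, ∀ X : ℝ, X₀ ≤ X →
      ∃ (S : Finset ℕ) (T : Finset (Fin (3 * (((r + 1) ^ 2 + 1) * r)) → ℚ)),
        (S.card : ℝ) ≤ X ^ ε ∧ (T.card : ℝ) ≤ X ^ ε ∧
        (∀ t ∈ T, ∀ s, 0 < t s ∧ ((t s).num : ℝ) ≤ X ∧ ((t s).den : ℝ) ≤ X ∧
          ∀ p : ℕ, p.Prime → padicValRat p (t s) ≠ 0 → p ∈ S) ∧
        ∀ g : Fin r → ℚ, (∀ k, 0 < g k) → (∀ k, ((g k).num : ℝ) ≤ X) →
          (∀ k, ((g k).den : ℝ) ≤ X) →
          ∃ t ∈ T, ∀ (m : Fin 2 → Fin 2 → Fin r → ℤ) (a : Fin 2 → Fin 2 → ℚ)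
            (M : Matrix (Fin 2) (Fin 2) ℝ),
            (∀ i j k, |(m i j k : ℝ)| ≤ X ^ A) →
            (∀ i j, a i j = ∏ k, g k ^ m i j k) →
            (∀ i j, M i j = Real.log (a i j)) →
            LinearIndependent ℚ (fun i : Fin 2 => fun j : Fin 2 => M i j) →
            LinearIndependent ℚ (fun j : Fin 2 => fun i : Fin 2 => M i j) →
            (∀ i j, M i j ∈ Submodule.span ℚ (Set.range fun s => Real.log (t s)) ∧
              ∀ p : ℕ, p.Prime → padicValRat p (a i j) ≠ 0 → p ∈ S) ∨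
            X ^ (-C) ≤ |M.det| ∨
            (M.det ≠ 0 ∧ ∃ w : Fin 2 → ℤ, w ≠ 0 ∧ (∀ i, |(w i : ℝ)| ≤ X ^ C) ∧
              ((∀ i, |∑ j, M i j * (w j : ℝ)| ≤ X ^ (-B) ∧ ∑ j, M i j * (w j : ℝ) ∈
                  Submodule.span ℚ (Set.range fun s => Real.log (t s))) ∨
               (∀ j, |∑ i, (w i : ℝ) * M i j| ≤ X ^ (-B) ∧ ∑ i, (w i : ℝ) * M i j ∈
                  Submodule.span ℚ (Set.range fun s => Real.log (t s))))) := by
  classical
  set R : ℕ := 3 * (((r + 1) ^ 2 + 1) * r) with hR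
  set δ : ℝ := ε / (8 * (r + 1)) with hδ
  have hr0 : (0:ℝ) ≤ r := Nat.cast_nonneg r
  have hδpos : 0 < δ := by positivity
  have hlog2 : 0 < Real.log 2 := Real.log_pos (by norm_num)
  obtain ⟨C, X₁, hbox⟩ := box r A B δ hδpos
  have hev1 : ∀ᶠ X : ℝ in atTop, 2 * (X ^ δ * Real.log X + 2) + 1 ≤ X ^ (2 * δ) := by
    have h1 := (isLittleO_log_rpow_atTop hδpos).bound (by norm_num : (0:ℝ) < 1 / 4)
    have h2 := (tendsto_rpow_atTop (by positivity : 0 < 2 * δ)).eventually_ge_atTop 10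
    filter_upwards [h1, h2, eventually_ge_atTop (1:ℝ)] with X h1 h2 h3
    have hXpos : 0 < X := by linarith
    rw [Real.norm_eq_abs, Real.norm_eq_abs, abs_of_nonneg (Real.log_nonneg h3),
      abs_of_nonneg (Real.rpow_nonneg hXpos.le _)] at h1
    have h4 : X ^ (2 * δ) = X ^ δ * X ^ δ := by
      rw [← Real.rpow_add hXpos]; congr 1; ring
    have h5 : 0 ≤ X ^ δ := Real.rpow_nonneg hXpos.le _
    have h6 : X ^ δ * Real.log X ≤ X ^ δ * (1 / 4 * X ^ δ) := mul_le_mul_of_nonneg_left h1 h5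
    rw [h4] at h2 ⊢
    nlinarith
  have hev2 : ∀ᶠ X : ℝ in atTop, (R : ℝ) * (2 * (Real.log X / Real.log 2)) ≤ X ^ (ε / 2) := by
    have hc : 0 < Real.log 2 / (2 * R + 1) := by positivity
    have h1 := (isLittleO_log_rpow_atTop (by positivity : 0 < ε / 2)).bound hc
    filter_upwards [h1, eventually_ge_atTop (1:ℝ)] with X h1 h3
    have hXpos : 0 < X := by linarith
    rw [Real.norm_eq_abs, Real.norm_eq_abs, abs_of_nonneg (Real.log_nonneg h3),
      abs_of_nonneg (Real.rpow_nonneg hXpos.le _)] at h1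
    have h5 : 0 ≤ X ^ (ε / 2) := Real.rpow_nonneg hXpos.le _
    have h6 : Real.log X / Real.log 2 ≤ X ^ (ε / 2) / (2 * R + 1) := by
      rw [div_le_iff₀ hlog2]
      refine h1.trans (le_of_eq ?_)
      field_simp
    calc (R : ℝ) * (2 * (Real.log X / Real.log 2)) ≤
        (R : ℝ) * (2 * (X ^ (ε / 2) / (2 * R + 1))) := by gcongr
      _ = (2 * R / (2 * R + 1)) * X ^ (ε / 2) := by ring
      _ ≤ 1 * X ^ (ε / 2) := by
          apply mul_le_mul_of_nonneg_right _ h5
          rw [div_le_one (by positivity)]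
          linarith
      _ = _ := one_mul _
  obtain ⟨X₂, hX₂⟩ := eventually_atTop.mp (hev1.and hev2)
  refine ⟨C, max X₁ (max X₂ 1), fun X hX => ?_⟩
  have hXX₁ : X₁ ≤ X := (le_max_left _ _).trans hX
  have hXX₂ : X₂ ≤ X := ((le_max_left _ _).trans (le_max_right _ _)).trans hX
  have hX1 : 1 ≤ X := ((le_max_right _ _).trans (le_max_right _ _)).trans hX
  have hXpos : 0 < X := by linarith
  obtain ⟨hcond1, hcond2⟩ := hX₂ X hXX₂
  choose tt htt1 htt2 using hbox X hXX₁
  have hlogX : 0 ≤ Real.log X := Real.log_nonneg hX1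
  have hXδ : 0 < X ^ δ := Real.rpow_pos_of_pos hXpos _
  set h : ℝ := X ^ (-δ) with hh
  have hhpos : 0 < h := Real.rpow_pos_of_pos hXpos _
  have hhδ : X ^ δ * h = 1 := by
    rw [hh, ← Real.rpow_add hXpos]; simp
  set L : ℕ := ⌈X ^ δ * Real.log X⌉₊ + 1 with hL
  have hL1 : X ^ δ * Real.log X + 1 ≤ L := by
    rw [hL]; push_cast
    linarith [Nat.le_ceil (X ^ δ * Real.log X)]
  have hL2 : (L : ℝ) ≤ X ^ δ * Real.log X + 2 := by
    rw [hL]; push_cast
    linarith [(Nat.ceil_lt_add_one (by positivity : 0 ≤ X ^ δ * Real.log X)).le]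
  let J : Finset (Fin r → ℤ) := Fintype.piFinset (fun _ => Finset.Icc (-(L:ℤ)) L)
  let T : Finset (Fin R → ℚ) := J.image (fun j => tt (fun k => (j k : ℝ) * h))
  let S : Finset ℕ := T.biUnion fun t => Finset.univ.biUnion fun s =>
    (t s).num.natAbs.primeFactors ∪ (t s).den.primeFactors
  have hTprop : ∀ t ∈ T, ∀ s, 0 < t s ∧ ((t s).num : ℝ) ≤ X ∧ ((t s).den : ℝ) ≤ X := by
    intro t ht
    obtain ⟨j, -, rfl⟩ := Finset.mem_image.mp ht
    exact htt1 _
  have hTcard : (T.card : ℝ) ≤ X ^ (ε / 2) := by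
    have h1 : T.card ≤ (2 * L + 1) ^ r := by
      refine Finset.card_image_le.trans ?_
      rw [Fintype.card_piFinset_const, Int.card_Icc]
      apply le_of_eq
      congr 1
      omega
    have h2 : (((2 * L + 1) ^ r : ℕ) : ℝ) ≤ (X ^ (2 * δ)) ^ r := by
      push_cast
      apply pow_le_pow_left₀ (by positivity)
      linarith
    have h3 : (X ^ (2 * δ)) ^ r ≤ X ^ (ε / 2) := by
      rw [← Real.rpow_natCast, ← Real.rpow_mul hXpos.le]
      apply Real.rpow_le_rpow_of_exponent_le hX1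
      rw [hδ]
      have h4 : 2 * (ε / (8 * ((r:ℝ) + 1))) * r = ε / 2 * (r / (2 * (r + 1))) := by
        field_simp
        ring
      rw [h4]
      have h5 : (r:ℝ) / (2 * (r + 1)) ≤ 1 := by
        rw [div_le_one (by positivity)]
        linarith
      calc ε / 2 * ((r:ℝ) / (2 * (r + 1))) ≤ ε / 2 * 1 := by gcongr
        _ = _ := mul_one _
    calc (T.card : ℝ) ≤ (((2 * L + 1) ^ r : ℕ) : ℝ) := by exact_mod_cast h1
      _ ≤ _ := h2.trans h3
  have hε2 : X ^ (ε / 2) ≤ X ^ ε := Real.rpow_le_rpow_of_exponent_le hX1 (by linarith)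
  have hTS : ∀ t ∈ T, ∀ s, 0 < t s ∧ ((t s).num : ℝ) ≤ X ∧ ((t s).den : ℝ) ≤ X ∧
      ∀ p : ℕ, p.Prime → padicValRat p (t s) ≠ 0 → p ∈ S := by
    intro t ht s
    obtain ⟨h5, h6, h7⟩ := hTprop t ht s
    refine ⟨h5, h6, h7, fun p hp hval => ?_⟩
    exact Finset.mem_biUnion.mpr ⟨t, ht, Finset.mem_biUnion.mpr
      ⟨s, Finset.mem_univ _, mem_primeFactors_of_padic p hp _ h5 hval⟩⟩
  refine ⟨S, T, ?_, hTcard.trans hε2, hTS, ?_⟩
  · -- the number of primes
    have h1 : S.card ≤ ∑ t ∈ T, ∑ s : Fin R,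
        ((t s).num.natAbs.primeFactors ∪ (t s).den.primeFactors).card :=
      Finset.card_biUnion_le.trans (Finset.sum_le_sum fun t _ => Finset.card_biUnion_le)
    have h2 : (S.card : ℝ) ≤ ∑ t ∈ T, ∑ s : Fin R,
        (((t s).num.natAbs.primeFactors ∪ (t s).den.primeFactors).card : ℝ) := by
      exact_mod_cast h1
    have h3 : ∀ t ∈ T, ∑ s : Fin R,
        (((t s).num.natAbs.primeFactors ∪ (t s).den.primeFactors).card : ℝ) ≤
        (R : ℝ) * (2 * (Real.log X / Real.log 2)) := by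
      intro t ht
      have h4 : ∀ s ∈ (Finset.univ : Finset (Fin R)),
          (((t s).num.natAbs.primeFactors ∪ (t s).den.primeFactors).card : ℝ) ≤
          2 * (Real.log X / Real.log 2) := by
        intro s _
        obtain ⟨h5, h6, h7⟩ := hTprop t ht s
        have hnum : (t s).num.natAbs ≠ 0 := by
          rw [Int.natAbs_ne_zero]
          exact (Rat.num_pos.mpr h5).ne'
        have h8 : (((t s).num.natAbs : ℕ) : ℝ) ≤ X := by
          rw [Nat.cast_natAbs, abs_of_pos (Rat.num_pos.mpr h5)]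
          exact h6
        have h9 := card_primeFactors_le _ hnum X h8
        have h10 := card_primeFactors_le _ (t s).den_ne_zero X h7
        have h11 : (((t s).num.natAbs.primeFactors ∪ (t s).den.primeFactors).card : ℝ) ≤
            ((t s).num.natAbs.primeFactors.card : ℝ) + ((t s).den.primeFactors.card : ℝ) := by
          exact_mod_cast Finset.card_union_le _ _
        linarith
      refine (Finset.sum_le_sum h4).trans ?_
      simp
    calc (S.card : ℝ) ≤ _ := h2
      _ ≤ ∑ t ∈ T, (R : ℝ) * (2 * (Real.log X / Real.log 2)) := Finset.sum_le_sum h3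
      _ = (T.card : ℝ) * ((R : ℝ) * (2 * (Real.log X / Real.log 2))) := by
          rw [Finset.sum_const, nsmul_eq_mul]
      _ ≤ X ^ (ε / 2) * X ^ (ε / 2) := by
          apply mul_le_mul hTcard hcond2 (by positivity) (by positivity)
      _ = X ^ ε := by
          rw [← Real.rpow_add hXpos]; congr 1; ring
  · intro g hg hg1 hg2
    let j : Fin r → ℤ := fun k => round (Real.log (g k) * X ^ δ)
    have hround : ∀ k, |Real.log (g k) * X ^ δ - (j k : ℝ)| ≤ 1 / 2 := fun k => abs_sub_round _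
    have hlogg : ∀ k, |Real.log (g k)| ≤ Real.log X := fun k =>
      abs_log_le (hg k) (hg1 k) (hg2 k)
    have hjJ : j ∈ J := by
      rw [Fintype.mem_piFinset]
      intro k
      have h1 := hround k
      have h2 : |Real.log (g k) * X ^ δ| ≤ X ^ δ * Real.log X := by
        rw [abs_mul, abs_of_pos hXδ, mul_comm]
        exact mul_le_mul_of_nonneg_left (hlogg k) hXδ.le
      rw [abs_le] at h1 h2
      rw [Finset.mem_Icc]
      constructor
      · have : (-(L:ℝ)) ≤ (j k : ℝ) := by linarith [h1.1, h1.2, h2.1, h2.2]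
        exact_mod_cast this
      · have : (j k : ℝ) ≤ (L:ℝ) := by linarith [h1.1, h1.2, h2.1, h2.2]
        exact_mod_cast this
    have htT : tt (fun k => (j k : ℝ) * h) ∈ T := Finset.mem_image.mpr ⟨j, hjJ, rfl⟩
    refine ⟨tt (fun k => (j k : ℝ) * h), htT, ?_⟩
    intro m a M hm ha hM hrow hcol
    have hM' : ∀ i j, M i j = ∑ k, (m i j k : ℝ) * Real.log (g k) := by
      intro i j
      rw [hM, ha, log_comb g hg]
    have hclose : ∀ k, |Real.log (g k) - (j k : ℝ) * h| ≤ h := by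
      intro k
      have h1 := hround k
      have h2 : Real.log (g k) - (j k : ℝ) * h = (Real.log (g k) * X ^ δ - (j k : ℝ)) * h := by
        linear_combination (-Real.log (g k)) * hhδ
      rw [h2, abs_mul, abs_of_pos hhpos]
      nlinarith
    have hc : RowsIndep M.transpose := rowsIndep_of M.transpose hcol
    rcases htt2 (fun k => (j k : ℝ) * h) g hg hg1 hg2 hclose m M hm hM' (rowsIndep_of M hrow)
      hc with h3 | h3
    · left
      intro i j'
      refine ⟨h3 i j', fun p hp hval => ?_⟩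
      by_contra hpS
      apply hval
      have hapos : 0 < a i j' := by
        rw [ha]
        exact Finset.prod_pos (fun k _ => zpow_pos (hg k) _)
      apply padic_of_mem _ (fun s => (hTS _ htT s).1) _ hapos _ p hp
      · intro s
        by_contra hne
        exact hpS ((hTS _ htT s).2.2.2 p hp hne)
      · rw [← hM]
        exact h3 i j'
    · exact Or.inr h3

end Pool.Agent.FewGroups
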