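import Mathlib
import Pool.Agent.FewGroups.Functional

/-!
# Small generators of the intersection of two groups of rationals, and counting
-/

set_option autoImplicit false

namespace Pool.Agent.FewGroups

lemma exists_minor' {F ι κ : Type*} [Field F] [Fintype κ] [DecidableEq κ] (v : κ → ι → F)
    (hv : LinearIndependent F v) :
    ∃ s : κ → ι, (Matrix.of fun i j => v i (s j)).det ≠ 0 := by
  let e : Fin (Fintype.card κ) ≃ κ := (Fintype.equivFin κ).symm
  obtain ⟨s, hs⟩ := exists_minor (fun i => v (e i)) (hv.comp _ e.injective)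
  refine ⟨fun j => s (e.symm j), ?_⟩
  rw [← Matrix.det_submatrix_equiv_self e]
  have h1 : (Matrix.of fun i j => v i (s (e.symm j))).submatrix e e =
      (Matrix.of fun i j => v (e i) (s j)) := by
    ext i j
    simp
  rw [h1]
  exact hs

/-- Cramer's rule with bounded integers. -/
lemma cramer_val {ι : Type*} [Fintype ι] [DecidableEq ι] (q : ι → ℚ)
    (hli : LinearIndependent ℚ (fun j => val (q j))) (Λ : ℝ)
    (hq : ∀ j (p : ℕ), p.Prime → |((padicValRat p (q j) : ℤ) : ℝ)| ≤ Λ) (a : ℚ)
    (ha : ∀ (p : ℕ), p.Prime → |((padicValRat p a : ℤ) : ℝ)| ≤ Λ)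
    (hmem : val a ∈ Submodule.span ℚ (Set.range fun j => val (q j))) :
    ∃ (D : ℤ) (c : ι → ℤ), D ≠ 0 ∧
      |(D : ℝ)| ≤ ((Fintype.card ι).factorial : ℝ) * Λ ^ Fintype.card ι ∧
      (∀ j, |(c j : ℝ)| ≤ ((Fintype.card ι).factorial : ℝ) * Λ ^ Fintype.card ι) ∧
      (D : ℚ) • val a = ∑ j, (c j : ℚ) • val (q j) := by
  obtain ⟨ℓ, hℓ⟩ := exists_minor' _ hli
  rw [Submodule.mem_span_range_iff_exists_fun] at hmem
  obtain ⟨x, hx⟩ := hmem
  let A : Matrix ι ι ℤ := Matrix.of fun i j => padicValRat (ℓ j : ℕ) (q i)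
  let bz : ι → ℤ := fun j => padicValRat (ℓ j : ℕ) a
  let AQ : Matrix ι ι ℚ := Matrix.of fun i j => val (q i) (ℓ j)
  have hAQ : AQ = A.map (fun z : ℤ => (z : ℚ)) := by
    ext i j
    simp [AQ, A, val]
  have hbd : ∀ (M : Matrix ι ι ℤ), (∀ i j, |((M i j : ℤ) : ℝ)| ≤ Λ) →
      |((M.det : ℤ) : ℝ)| ≤ ((Fintype.card ι).factorial : ℝ) * Λ ^ Fintype.card ι := by
    intro M hM
    have h1 : ((M.det : ℤ) : ℝ) = (M.map (fun z : ℤ => (z : ℝ))).det := by
      have := RingHom.map_det (Int.castRingHom ℝ) M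
      simpa using this
    rw [h1]
    have h2 := Matrix.det_le (A := M.map (fun z : ℤ => (z : ℝ)))
      (abv := (IsAbsoluteValue.toAbsoluteValue (abs : ℝ → ℝ))) (x := Λ) (by
        intro i j
        simp only [Matrix.map_apply, IsAbsoluteValue.toAbsoluteValue_apply]
        exact hM i j)
    simpa using h2
  have hdetQ : AQ.det = ((A.det : ℤ) : ℚ) := by
    rw [hAQ]
    have := RingHom.map_det (Int.castRingHom ℚ) A
    simpa using this.symm
  have hdetne : A.det ≠ 0 := by
    intro h
    apply hℓ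
    change AQ.det = 0
    rw [hdetQ, h]
    simp
  have hbQ : (fun j => val a (ℓ j)) = AQ.transpose.mulVec x := by
    funext j
    rw [← hx]
    simp only [Finset.sum_apply, Pi.smul_apply, smul_eq_mul, Matrix.mulVec, dotProduct,
      Matrix.transpose_apply, AQ, Matrix.of_apply]
    apply Finset.sum_congr rfl
    intro i _
    ring
  have hcr : AQ.transpose.cramer (fun j => val a (ℓ j)) = AQ.det • x := by
    have h1 := Matrix.mulVec_cramer AQ.transpose (fun j => val a (ℓ j))
    rw [Matrix.det_transpose] at h1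
    have h2 : AQ.transpose.mulVec (AQ.transpose.cramer (fun j => val a (ℓ j)) - AQ.det • x) = 0 := by
      rw [Matrix.mulVec_sub, h1, Matrix.mulVec_smul, ← hbQ, sub_self]
    have h3 : AQ.transpose.det ≠ 0 := by
      rw [Matrix.det_transpose]; exact hℓ
    have h4 := Matrix.eq_zero_of_mulVec_eq_zero h3 h2
    rwa [sub_eq_zero] at h4
  refine ⟨A.det, fun i => (A.updateRow i bz).det, hdetne, hbd A (fun i j => hq i _ (ℓ j).2),
    fun i => hbd _ (fun i' j => ?_), ?_⟩
  · by_cases h : i' = i
    · subst h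
      rw [Matrix.updateRow_self]
      exact ha _ (ℓ j).2
    · rw [Matrix.updateRow_ne h]
      exact hq i' _ (ℓ j).2
  · rw [← hx, Finset.smul_sum]
    apply Finset.sum_congr rfl
    intro i _
    rw [smul_smul]
    congr 1
    have h1 := congrFun hcr i
    rw [Matrix.cramer_transpose_apply, Pi.smul_apply, smul_eq_mul, hdetQ] at h1
    rw [← h1]
    have h2 : AQ.updateRow i (fun j => val a (ℓ j)) =
        (A.updateRow i bz).map (fun z : ℤ => (z : ℚ)) := by
      ext i' j
      by_cases h : i' = i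
      · subst h
        simp [val, bz]
      · rw [Matrix.updateRow_ne h, Matrix.map_apply, Matrix.updateRow_ne h, hAQ, Matrix.map_apply]
    rw [h2]
    have := RingHom.map_det (Int.castRingHom ℚ) (A.updateRow i bz)
    simpa using this.symm

/-- Generators with small exponents of the intersection of `logSpan t` with the group of the
`g_k`. -/
lemma small_generators {R r : ℕ} (t : Fin R → ℚ) (ht : ∀ s, 0 < t s) (g : Fin r → ℚ)
    (hg : ∀ k, 0 < g k) (Λ : ℝ) (hΛ : 1 ≤ Λ)
    (hbt : ∀ s (p : ℕ), p.Prime → |((padicValRat p (t s) : ℤ) : ℝ)| ≤ Λ)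
    (hbg : ∀ k (p : ℕ), p.Prime → |((padicValRat p (g k) : ℤ) : ℝ)| ≤ Λ) :
    ∃ n : Fin r → Fin r → ℤ,
      (∀ i k, |(n i k : ℝ)| ≤ ((R + r + 1).factorial : ℝ) * Λ ^ (R + r)) ∧
      (∀ i, ∑ k, (n i k : ℝ) * Real.log (g k) ∈ logSpan t) ∧
      (∀ e : Fin r → ℤ, ∑ k, (e k : ℝ) * Real.log (g k) ∈ logSpan t →
        ∑ k, (e k : ℝ) * Real.log (g k) ∈
          Submodule.span ℚ (Set.range fun i => ∑ k, (n i k : ℝ) * Real.log (g k))) := by
  classical
  let q : Fin R ⊕ Fin r → ℚ := Sum.elim t g
  let v : Fin R ⊕ Fin r → (Nat.Primes → ℚ) := fun s => val (q s)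
  have hq : ∀ s (p : ℕ), p.Prime → |((padicValRat p (q s) : ℤ) : ℝ)| ≤ Λ := by
    rintro (s | k) p hp
    · exact hbt s p hp
    · exact hbg k p hp
  obtain ⟨b₁, hb₁t, -, hb₁s, hb₁li⟩ := exists_linearIndepOn_extension (K := ℚ) (v := v)
    (linearIndepOn_empty ℚ v) (Set.empty_subset (Set.range Sum.inl))
  obtain ⟨b₂, hb₂t, hb₁₂, hb₂s, hb₂li⟩ := exists_linearIndepOn_extension (K := ℚ) (v := v)
    hb₁li (Set.subset_union_left (s := b₁) (t := Set.range Sum.inr))
  -- the span of the `t`
  have hT : Submodule.span ℚ (Set.range fun s => val (t s)) = Submodule.span ℚ (v '' b₁) := by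
    apply le_antisymm
    · rw [Submodule.span_le]
      rintro x ⟨s, rfl⟩
      exact hb₁s ⟨Sum.inl s, ⟨s, rfl⟩, rfl⟩
    · apply Submodule.span_mono
      rintro x ⟨s, hs, rfl⟩
      obtain ⟨s', rfl⟩ := hb₁t hs
      exact ⟨s', rfl⟩
  have hlib : LinearIndependent ℚ (fun j : b₂ => val (q j)) := hb₂li
  have hcard : Fintype.card b₂ ≤ R + r := by
    have := Fintype.card_subtype_le (fun s : Fin R ⊕ Fin r => s ∈ b₂)
    simpa using this
  have hmem : ∀ k, val (g k) ∈ Submodule.span ℚ (Set.range fun j : b₂ => val (q j)) := by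
    intro k
    have h1 := hb₂s ⟨Sum.inr k, Or.inr ⟨k, rfl⟩, rfl⟩
    have h2 : (Set.range fun j : b₂ => val (q j)) = v '' b₂ := by
      ext x
      constructor
      · rintro ⟨j, rfl⟩
        exact ⟨j, j.2, rfl⟩
      · rintro ⟨s, hs, rfl⟩
        exact ⟨⟨s, hs⟩, rfl⟩
    rw [h2]
    exact h1
  choose D c hD hDle hcle hDc using fun k => cramer_val (fun j : b₂ => q j) hlib Λ
    (fun j p hp => hq j p hp) (g k) (fun p hp => hbg k p hp) (hmem k)
  -- the set of elements of `b₂` outside `b₁`
  have hout : ∀ j : b₂, (j : Fin R ⊕ Fin r) ∉ b₁ → ∃ k, (j : Fin R ⊕ Fin r) = Sum.inr k := by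
    intro j hj
    rcases hb₂t j.2 with h | ⟨k, hk⟩
    · exact absurd h hj
    · exact ⟨k, hk.symm⟩
  let n : Fin r → Fin r → ℤ := fun k k' => (if k' = k then D k else 0) -
    ∑ j : b₂, if (j : Fin R ⊕ Fin r) ∉ b₁ ∧ (j : Fin R ⊕ Fin r) = Sum.inr k' then c k j else 0
  -- the combination
  have hN : ∀ k, ∑ k', (n k k' : ℚ) • val (g k') =
      ∑ j : b₂, if (j : Fin R ⊕ Fin r) ∈ b₁ then (c k j : ℚ) • val (q j) else 0 := by
    intro k
    have h1 : ∑ k', (n k k' : ℚ) • val (g k') = (D k : ℚ) • val (g k) -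
        ∑ j : b₂, if (j : Fin R ⊕ Fin r) ∉ b₁ then (c k j : ℚ) • val (q j) else 0 := by
      simp only [n]
      push_cast
      simp only [sub_smul, Finset.sum_sub_distrib, ite_smul, zero_smul]
      congr 1
      · simp
      · simp only [Finset.sum_smul]
        rw [Finset.sum_comm]
        apply Finset.sum_congr rfl
        intro j _
        by_cases hj : (j : Fin R ⊕ Fin r) ∈ b₁
        · simp [hj]
        · obtain ⟨k', hk'⟩ := hout j hj
          rw [if_pos hj, Finset.sum_eq_single k']
          · rw [if_pos ⟨hj, hk'⟩, hk']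
            rfl
          · intro k'' _ hne
            rw [if_neg, zero_smul]
            rintro ⟨-, h⟩
            rw [hk'] at h
            exact hne (Sum.inr_injective h).symm
          · intro h; exact absurd (Finset.mem_univ _) h
    rw [h1, hDc k, ← Finset.sum_sub_distrib]
    apply Finset.sum_congr rfl
    intro j _
    by_cases hj : (j : Fin R ⊕ Fin r) ∈ b₁ <;> simp [hj]
  have hNT : ∀ k, ∑ k', (n k k' : ℚ) • val (g k') ∈ Submodule.span ℚ (v '' b₁) := by
    intro k
    rw [hN k]
    apply Submodule.sum_mem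
    intro j _
    split_ifs with hj
    · exact Submodule.smul_mem _ _ (Submodule.subset_span ⟨j, hj, rfl⟩)
    · exact Submodule.zero_mem _
  refine ⟨n, ?_, ?_, ?_⟩
  · intro k k'
    have hF : 0 ≤ ((Fintype.card b₂).factorial : ℝ) * Λ ^ Fintype.card b₂ := by positivity
    have h1 : |((n k k' : ℤ) : ℝ)| ≤
        (1 + Fintype.card b₂) * (((Fintype.card b₂).factorial : ℝ) * Λ ^ Fintype.card b₂) := by
      simp only [n]
      push_cast
      refine (abs_sub _ _).trans ?_
      have h2 : |(if k' = k then ((D k : ℤ) : ℝ) else 0)| ≤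
          ((Fintype.card b₂).factorial : ℝ) * Λ ^ Fintype.card b₂ := by
        split_ifs
        · exact hDle k
        · simpa using hF
      have h3 : |∑ j : b₂, (if (j : Fin R ⊕ Fin r) ∉ b₁ ∧ (j : Fin R ⊕ Fin r) = Sum.inr k' then
          ((c k j : ℤ) : ℝ) else 0)| ≤ Fintype.card b₂ *
          (((Fintype.card b₂).factorial : ℝ) * Λ ^ Fintype.card b₂) := by
        refine (Finset.abs_sum_le_sum_abs _ _).trans ?_
        have h4 : ∀ j ∈ (Finset.univ : Finset b₂),
            |(if (j : Fin R ⊕ Fin r) ∉ b₁ ∧ (j : Fin R ⊕ Fin r) = Sum.inr k' then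
            ((c k j : ℤ) : ℝ) else 0)| ≤
            ((Fintype.card b₂).factorial : ℝ) * Λ ^ Fintype.card b₂ := by
          intro j _
          split_ifs
          · exact hcle k j
          · simpa using hF
        refine (Finset.sum_le_sum h4).trans ?_
        simp
      linarith
    refine h1.trans ?_
    have h5 : (1 + (Fintype.card b₂ : ℝ)) * (((Fintype.card b₂).factorial : ℝ) *
        Λ ^ Fintype.card b₂) = (((Fintype.card b₂ + 1).factorial : ℕ) : ℝ) *
        Λ ^ Fintype.card b₂ := by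
      rw [Nat.factorial_succ]
      push_cast
      ring
    rw [h5]
    have h6 : (((Fintype.card b₂ + 1).factorial : ℕ) : ℝ) ≤ ((R + r + 1).factorial : ℝ) := by
      exact_mod_cast Nat.factorial_le (by omega)
    exact mul_le_mul h6 (pow_le_pow_right₀ hΛ hcard) (by positivity) (by positivity)
  · intro k
    rw [mem_logSpan_iff t ht g hg (n k), hT]
    exact hNT k
  · intro e he
    rw [mem_logSpan_iff t ht g hg e, hT] at he
    -- rational coefficients
    have hDQ : ∀ k, (D k : ℚ) ≠ 0 := fun k => by exact_mod_cast hD k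
    have hkey : ∑ k, (e k : ℚ) • val (g k) =
        ∑ k, ((e k : ℚ) / D k) • ∑ k', (n k k' : ℚ) • val (g k') := by
      have h1 : ∑ k, (e k : ℚ) • val (g k) -
          ∑ k, ((e k : ℚ) / D k) • ∑ k', (n k k' : ℚ) • val (g k') =
          ∑ j : b₂, if (j : Fin R ⊕ Fin r) ∉ b₁ then
            (∑ k, ((e k : ℚ) / D k) * c k j) • val (q j) else 0 := by
        rw [← Finset.sum_sub_distrib]
        have h2 : ∀ k, (e k : ℚ) • val (g k) -
            ((e k : ℚ) / D k) • ∑ k', (n k k' : ℚ) • val (g k') =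
            ∑ j : b₂, if (j : Fin R ⊕ Fin r) ∉ b₁ then
              (((e k : ℚ) / D k) * c k j) • val (q j) else 0 := by
          intro k
          have h3 : (e k : ℚ) • val (g k) = ((e k : ℚ) / D k) • ((D k : ℚ) • val (g k)) := by
            rw [smul_smul, div_mul_cancel₀ _ (hDQ k)]
          rw [h3, hN k, hDc k, ← smul_sub, ← Finset.sum_sub_distrib, Finset.smul_sum]
          apply Finset.sum_congr rfl
          intro j _
          by_cases hj : (j : Fin R ⊕ Fin r) ∈ b₁ <;> simp [hj, smul_smul]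
        simp only [h2]
        rw [Finset.sum_comm]
        apply Finset.sum_congr rfl
        intro j _
        by_cases hj : (j : Fin R ⊕ Fin r) ∈ b₁
        · simp [hj]
        · simp only [hj, not_false_iff, if_true]
          rw [Finset.sum_smul]
      have h4 : ∑ k, (e k : ℚ) • val (g k) -
          ∑ k, ((e k : ℚ) / D k) • ∑ k', (n k k' : ℚ) • val (g k') ∈
          Submodule.span ℚ (v '' b₁) := by
        apply Submodule.sub_mem _ he
        exact Submodule.sum_mem _ (fun k _ => Submodule.smul_mem _ _ (hNT k))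
      -- disjointness
      have h5 : LinearIndependent ℚ (fun j : b₂ => val (q j)) := hlib
      have h6 := h5.disjoint_span_image (s := {j : b₂ | (j : Fin R ⊕ Fin r) ∈ b₁})
        (t := {j : b₂ | (j : Fin R ⊕ Fin r) ∉ b₁}) (by
          rw [Set.disjoint_left]
          intro j h7 h8
          exact h8 h7)
      have h7 : ∑ k, (e k : ℚ) • val (g k) -
          ∑ k, ((e k : ℚ) / D k) • ∑ k', (n k k' : ℚ) • val (g k') = 0 := by
        apply Submodule.disjoint_def.mp h6
        · have h8 : v '' b₁ ⊆ (fun j : b₂ => val (q j)) '' {j : b₂ | (j : Fin R ⊕ Fin r) ∈ b₁} := by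
            rintro x ⟨s, hs, rfl⟩
            exact ⟨⟨s, hb₁₂ hs⟩, hs, rfl⟩
          exact Submodule.span_mono h8 h4
        · rw [h1]
          apply Submodule.sum_mem
          intro j _
          by_cases hj : (j : Fin R ⊕ Fin r) ∈ b₁
          · simp only [hj, not_true_eq_false, if_false]
            exact Submodule.zero_mem _
          · simp only [hj, not_false_iff, if_true]
            exact Submodule.smul_mem _ _ (Submodule.subset_span ⟨j, hj, rfl⟩)
      rwa [sub_eq_zero] at h7
    -- back to logarithms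
    have hlog : ∑ k, ((((e k : ℚ) - ∑ i, ((e i : ℚ) / D i) * n i k) : ℚ) : ℝ) *
        Real.log (g k) = 0 := by
      rw [log_zero_iff g hg]
      simp only [sub_smul, Finset.sum_sub_distrib]
      rw [hkey, sub_eq_zero]
      simp only [Finset.smul_sum, Finset.sum_smul]
      rw [Finset.sum_comm]
      apply Finset.sum_congr rfl
      intro k _
      apply Finset.sum_congr rfl
      intro i _
      rw [smul_smul]
    have h9 : ∑ k, (e k : ℝ) * Real.log (g k) =
        ∑ i, ((e i : ℚ) / D i) • ∑ k, (n i k : ℝ) * Real.log (g k) := by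
      have h10 : ∑ k, ((((e k : ℚ) - ∑ i, ((e i : ℚ) / D i) * n i k) : ℚ) : ℝ) *
          Real.log (g k) = ∑ k, (e k : ℝ) * Real.log (g k) -
          ∑ i, ((e i : ℚ) / D i) • ∑ k, (n i k : ℝ) * Real.log (g k) := by
        push_cast
        simp only [sub_mul, Finset.sum_sub_distrib, Rat.smul_def]
        congr 1
        simp only [Finset.sum_mul, Finset.mul_sum]
        rw [Finset.sum_comm]
        apply Finset.sum_congr rfl
        intro i _
        apply Finset.sum_congr rfl
        intro k _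
        push_cast
        ring
      rw [h10] at hlog
      linarith
    rw [h9]
    exact Submodule.sum_mem _ (fun i _ => Submodule.smul_mem _ _
      (Submodule.subset_span ⟨i, rfl⟩))

/-- The rationals with logarithm in `logSpan t` and bounded valuations are few. -/
lemma card_bounded {R : ℕ} (t : Fin R → ℚ) (ht : ∀ s, 0 < t s) (Z : ℕ) :
    ∃ Q : Finset ℚ, Q.card ≤ (2 * Z + 1) ^ R ∧
      (∀ x ∈ Q, 0 < x ∧ Real.log x ∈ logSpan t) ∧
      ∀ x : ℚ, 0 < x → Real.log x ∈ logSpan t →
        (∀ p : ℕ, p.Prime → |((padicValRat p x : ℤ) : ℝ)| ≤ Z) → x ∈ Q := by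
  classical
  obtain ⟨b, -, -, hbs, hbli⟩ := exists_linearIndepOn_extension (K := ℚ)
    (v := fun s => val (t s)) (linearIndepOn_empty ℚ _) (Set.empty_subset Set.univ)
  have hlib : LinearIndependent ℚ (fun j : b => val (t j)) := hbli
  have hspan : Submodule.span ℚ (Set.range fun s => val (t s)) ≤
      Submodule.span ℚ (Set.range fun j : b => val (t j)) := by
    rw [Submodule.span_le]
    rintro x ⟨s, rfl⟩
    have h1 := hbs ⟨s, Set.mem_univ _, rfl⟩
    have h2 : (fun s => val (t s)) '' b = Set.range fun j : b => val (t j) := by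
      ext x
      constructor
      · rintro ⟨s, hs, rfl⟩
        exact ⟨⟨s, hs⟩, rfl⟩
      · rintro ⟨j, rfl⟩
        exact ⟨j, j.2, rfl⟩
    rw [h2] at h1
    exact h1
  obtain ⟨ℓ, hℓ⟩ := exists_minor' _ hlib
  have hcard : Fintype.card b ≤ R := by
    have := Fintype.card_subtype_le (fun s : Fin R => s ∈ b)
    simpa using this
  let φ : ℚ → (b → ℤ) := fun x j => padicValRat (ℓ j : ℕ) x
  let 𝒮 : Set ℚ := {x | 0 < x ∧ Real.log x ∈ logSpan t ∧
    ∀ p : ℕ, p.Prime → |((padicValRat p x : ℤ) : ℝ)| ≤ Z}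
  have hval : ∀ x ∈ 𝒮, val x ∈ Submodule.span ℚ (Set.range fun j : b => val (t j)) := by
    rintro x ⟨hx, hl, -⟩
    have h1 := (mem_logSpan_iff t ht (fun _ : Unit => x) (fun _ => hx) (fun _ => 1)).mp
      (by simpa using hl)
    simp only [Finset.univ_unique, Finset.sum_singleton, Int.cast_one, one_smul] at h1
    exact hspan h1
  have hinj : Set.InjOn φ 𝒮 := by
    intro x hx y hy hxy
    have h1 := Submodule.sub_mem _ (hval x hx) (hval y hy)
    rw [Submodule.mem_span_range_iff_exists_fun] at h1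
    obtain ⟨c, hc⟩ := h1
    have h2 : Matrix.vecMul c (Matrix.of fun i j => val (t (i : Fin R)) (ℓ j)) = 0 := by
      funext j
      have h3 : (∑ i : b, c i • val (t i)) (ℓ j) = (val x - val y) (ℓ j) := by rw [hc]
      rw [Finset.sum_apply] at h3
      simp only [Matrix.vecMul, dotProduct, Matrix.of_apply, Pi.zero_apply]
      have h4 : (val x - val y) (ℓ j) = 0 := by
        have h5 := congrFun hxy j
        simp only [φ] at h5
        simp only [Pi.sub_apply, val, h5, sub_self]
      rw [h4] at h3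
      exact h3
    have h3 := Matrix.eq_zero_of_vecMul_eq_zero hℓ h2
    have h4 : val x = val y := by
      rw [← sub_eq_zero, ← hc, h3]
      simp
    -- now x / y = 1
    have h5 : x / y = 1 := by
      apply eq_one_of_padic _ (div_pos hx.1 hy.1)
      intro p hp
      have : Fact p.Prime := ⟨hp⟩
      rw [padicValRat.div hx.1.ne' hy.1.ne']
      have h6 : ∀ P : Nat.Primes, (padicValRat (P : ℕ) x : ℚ) = (padicValRat (P : ℕ) y : ℚ) := by
        intro P
        exact congrFun h4 P
      have h7 := h6 ⟨p, hp⟩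
      have h8 : padicValRat p x = padicValRat p y := by exact_mod_cast h7
      rw [h8, sub_self]
    rwa [div_eq_one_iff_eq hy.1.ne'] at h5
  let B : Finset (b → ℤ) := Fintype.piFinset (fun _ => Finset.Icc (-(Z : ℤ)) Z)
  have hmaps : Set.MapsTo φ 𝒮 B := by
    intro x hx
    rw [Finset.mem_coe, Fintype.mem_piFinset]
    intro j
    have h1 := hx.2.2 (ℓ j) (ℓ j).2
    rw [abs_le] at h1
    rw [Finset.mem_Icc]
    constructor
    · have h2 : (-(Z : ℝ)) ≤ ((padicValRat (ℓ j : ℕ) x : ℤ) : ℝ) := h1.1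
      exact_mod_cast h2
    · have h2 : ((padicValRat (ℓ j : ℕ) x : ℤ) : ℝ) ≤ Z := h1.2
      exact_mod_cast h2
  have hfin : 𝒮.Finite := Set.Finite.of_injOn hmaps hinj B.finite_toSet
  refine ⟨hfin.toFinset, ?_, ?_, ?_⟩
  · have h1 : hfin.toFinset.card ≤ B.card := by
      apply Finset.card_le_card_of_injOn φ
      · intro x hx
        exact hmaps (hfin.mem_toFinset.mp hx)
      · intro x hx y hy h
        exact hinj (hfin.mem_toFinset.mp hx) (hfin.mem_toFinset.mp hy) h
    refine h1.trans ?_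
    simp only [B]
    rw [Fintype.card_piFinset]
    have h2 : ((Z : ℤ) + 1 - -(Z : ℤ)).toNat = 2 * Z + 1 := by omega
    simp only [Int.card_Icc, h2, Finset.prod_const, Finset.card_univ]
    exact Nat.pow_le_pow_right (by omega) hcard
  · intro x hx
    have := hfin.mem_toFinset.mp hx
    exact ⟨this.1, this.2.1⟩
  · intro x h1 h2 h3
    exact hfin.mem_toFinset.mpr ⟨h1, h2, h3⟩

end Pool.Agent.FewGroups
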