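import Mathlib
import Pool.Agent.FewGroups.Grid
import Pool.Agent.FewGroups.Small

set_option autoImplicit false

namespace Pool.Agent.FewGroups

open Filter

/-- The number of tuples grows slower than any power. -/
lemma eventually_small (R r : ℕ) (η : ℝ) (hη : 0 < η) :
    ∀ᶠ X : ℝ in atTop, (((2 * ⌈(r : ℝ) * ((((R + r + 1).factorial : ℕ) : ℝ) *
      (Real.log X / Real.log 2) ^ (R + r) * (Real.log X / Real.log 2))⌉₊ + 1) ^ R) ^ r : ℝ) ≤
      X ^ η := by
  have hlog2 : 0 < Real.log 2 := Real.log_pos (by norm_num)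
  set F : ℝ := (((R + r + 1).factorial : ℕ) : ℝ) with hF
  have hF0 : 0 ≤ F := Nat.cast_nonneg _
  set κ : ℝ := η / (R * r + 1) with hκ
  have hκpos : 0 < κ := by positivity
  set c : ℝ := (Real.log 2) ^ (R + r + 1) / (2 * r * F + 3) with hc
  have hcpos : 0 < c := by positivity
  have h1 := (isLittleO_log_rpow_rpow_atTop ((R + r + 1 : ℕ) : ℝ) hκpos).bound hcpos
  filter_upwards [h1, eventually_ge_atTop (2:ℝ)] with X hX hX2
  have hXpos : 0 < X := by linarith
  have hX1 : 1 ≤ X := by linarith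
  set Λ : ℝ := Real.log X / Real.log 2 with hΛ
  have hΛ1 : 1 ≤ Λ := by
    rw [hΛ, le_div_iff₀ hlog2, one_mul]
    exact Real.log_le_log (by norm_num) hX2
  have hlogX : 0 ≤ Real.log X := Real.log_nonneg hX1
  rw [Real.norm_eq_abs, Real.norm_eq_abs, Real.rpow_natCast, abs_of_nonneg (by positivity),
    abs_of_nonneg (Real.rpow_nonneg hXpos.le _)] at hX
  have h2 : (2 * r * F + 3) * Λ ^ (R + r + 1) ≤ X ^ κ := by
    rw [hΛ, div_pow]
    have h3 : (2 * r * F + 3) * (Real.log X ^ (R + r + 1) / Real.log 2 ^ (R + r + 1)) ≤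
        (2 * r * F + 3) * ((c * X ^ κ) / Real.log 2 ^ (R + r + 1)) := by gcongr
    refine h3.trans (le_of_eq ?_)
    rw [hc]
    field_simp
  have h4 : (2 * (⌈(r : ℝ) * (F * Λ ^ (R + r) * Λ)⌉₊ : ℝ) + 1) ≤ X ^ κ := by
    have h5 : ((⌈(r : ℝ) * (F * Λ ^ (R + r) * Λ)⌉₊ : ℕ) : ℝ) ≤
        (r : ℝ) * (F * Λ ^ (R + r) * Λ) + 1 :=
      (Nat.ceil_lt_add_one (by positivity)).le
    have h6 : (1:ℝ) ≤ Λ ^ (R + r + 1) := one_le_pow₀ hΛ1
    have h7 : (r : ℝ) * (F * Λ ^ (R + r) * Λ) = r * F * Λ ^ (R + r + 1) := by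
      rw [pow_succ Λ (R + r)]; ring
    rw [h7] at h5
    rw [h7]
    calc (2 * (⌈(r : ℝ) * F * Λ ^ (R + r + 1)⌉₊ : ℝ) + 1) ≤
        2 * ((r : ℝ) * F * Λ ^ (R + r + 1) + 1) + 1 := by gcongr
      _ ≤ (2 * r * F + 3) * Λ ^ (R + r + 1) := by nlinarith
      _ ≤ X ^ κ := h2
  have h8 : (((2 * (⌈(r : ℝ) * (F * Λ ^ (R + r) * Λ)⌉₊ : ℝ) + 1) ^ R) ^ r : ℝ) ≤
      ((X ^ κ) ^ R) ^ r := by gcongr
  refine h8.trans ?_
  rw [← pow_mul, ← Real.rpow_natCast, ← Real.rpow_mul hXpos.le]
  apply Real.rpow_le_rpow_of_exponent_le hX1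
  rw [hκ]
  push_cast
  rw [div_mul_eq_mul_div, div_le_iff₀ (by positivity)]
  nlinarith

/-- The statement with subspaces of dimension at most `r`. -/
theorem few_rank (r : ℕ) (A B ε : ℝ) (hε : 0 < ε) :
    ∃ C X₀ : ℝ, ∀ X : ℝ, X₀ ≤ X →
      ∃ (S : Finset ℕ) (T : Finset (Fin r → ℚ)),
        (S.card : ℝ) ≤ X ^ ε ∧ (T.card : ℝ) ≤ X ^ ε ∧
        (∀ u ∈ T, ∀ s, 0 < u s ∧ ∀ p : ℕ, p.Prime → padicValRat p (u s) ≠ 0 → p ∈ S) ∧
        ∀ g : Fin r → ℚ, (∀ k, 0 < g k) → (∀ k, ((g k).num : ℝ) ≤ X) →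
          (∀ k, ((g k).den : ℝ) ≤ X) →
          ∃ u ∈ T, Submodule.span ℚ (Set.range fun s => Real.log (u s)) ≤
              Submodule.span ℚ (Set.range fun k => Real.log (g k)) ∧
            ∀ (m : Fin 2 → Fin 2 → Fin r → ℤ) (a : Fin 2 → Fin 2 → ℚ)
              (M : Matrix (Fin 2) (Fin 2) ℝ),
            (∀ i j k, |(m i j k : ℝ)| ≤ X ^ A) →
            (∀ i j, a i j = ∏ k, g k ^ m i j k) →
            (∀ i j, M i j = Real.log (a i j)) →
            LinearIndependent ℚ (fun i : Fin 2 => fun j : Fin 2 => M i j) →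
            LinearIndependent ℚ (fun j : Fin 2 => fun i : Fin 2 => M i j) →
            (∀ i j, M i j ∈ Submodule.span ℚ (Set.range fun s => Real.log (u s)) ∧
              ∀ p : ℕ, p.Prime → padicValRat p (a i j) ≠ 0 → p ∈ S) ∨
            X ^ (-C) ≤ |M.det| ∨
            (M.det ≠ 0 ∧ ∃ w : Fin 2 → ℤ, w ≠ 0 ∧ (∀ i, |(w i : ℝ)| ≤ X ^ C) ∧
              ((∀ i, |∑ j, M i j * (w j : ℝ)| ≤ X ^ (-B) ∧ ∑ j, M i j * (w j : ℝ) ∈
                  Submodule.span ℚ (Set.range fun s => Real.log (u s))) ∨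
               (∀ j, |∑ i, (w i : ℝ) * M i j| ≤ X ^ (-B) ∧ ∑ i, (w i : ℝ) * M i j ∈
                  Submodule.span ℚ (Set.range fun s => Real.log (u s))))) := by
  classical
  have hlog2 : 0 < Real.log 2 := Real.log_pos (by norm_num)
  obtain ⟨C, X₁, hfew⟩ := few r A B (ε / 4) (by positivity)
  set R : ℕ := 3 * (((r + 1) ^ 2 + 1) * r) with hR
  obtain ⟨X₂, hX₂⟩ := eventually_atTop.mp (eventually_small R r (ε / 4) (by positivity))
  refine ⟨C, max X₁ (max X₂ 2), fun X hX => ?_⟩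
  have hXX₁ : X₁ ≤ X := (le_max_left _ _).trans hX
  have hXX₂ : X₂ ≤ X := ((le_max_left _ _).trans (le_max_right _ _)).trans hX
  have hX2 : 2 ≤ X := ((le_max_right _ _).trans (le_max_right _ _)).trans hX
  have hX1 : 1 ≤ X := by linarith
  have hXpos : 0 < X := by linarith
  have hcond := hX₂ X hXX₂
  obtain ⟨S, T₀, hS, hT₀, hTS, hmain⟩ := hfew X hXX₁
  set Λ : ℝ := Real.log X / Real.log 2 with hΛ
  have hΛ1 : 1 ≤ Λ := by
    rw [hΛ, le_div_iff₀ hlog2, one_mul]
    exact Real.log_le_log (by norm_num) hX2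
  set Z : ℕ := ⌈(r : ℝ) * ((((R + r + 1).factorial : ℕ) : ℝ) * Λ ^ (R + r) * Λ)⌉₊ with hZ
  -- the finite sets of rationals
  have hQ : ∀ t : Fin R → ℚ, ∃ Q : Finset ℚ, t ∈ T₀ → (Q.card ≤ (2 * Z + 1) ^ R ∧
      (∀ x ∈ Q, 0 < x ∧ Real.log x ∈ logSpan t) ∧
      ∀ x : ℚ, 0 < x → Real.log x ∈ logSpan t →
        (∀ p : ℕ, p.Prime → |((padicValRat p x : ℤ) : ℝ)| ≤ Z) → x ∈ Q) := by
    intro t
    by_cases ht : t ∈ T₀
    · obtain ⟨Q, h1, h2, h3⟩ := card_bounded t (fun s => (hTS t ht s).1) Z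
      exact ⟨Q, fun _ => ⟨h1, h2, h3⟩⟩
    · exact ⟨∅, fun h => absurd h ht⟩
  choose Q hQ using hQ
  let T : Finset (Fin r → ℚ) := T₀.biUnion fun t => Fintype.piFinset (fun _ : Fin r => Q t)
  have hε1 : X ^ (ε / 4) ≤ X ^ ε := Real.rpow_le_rpow_of_exponent_le hX1 (by linarith)
  refine ⟨S, T, hS.trans hε1, ?_, ?_, ?_⟩
  · have h1 : T.card ≤ ∑ t ∈ T₀, (Fintype.piFinset (fun _ : Fin r => Q t)).card :=
      Finset.card_biUnion_le
    have h2 : ∀ t ∈ T₀, (Fintype.piFinset (fun _ : Fin r => Q t)).card ≤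
        ((2 * Z + 1) ^ R) ^ r := by
      intro t ht
      rw [Fintype.card_piFinset]
      simp only [Finset.prod_const, Finset.card_univ, Fintype.card_fin]
      exact Nat.pow_le_pow_left (hQ t ht).1 r
    have h3 : T.card ≤ T₀.card * ((2 * Z + 1) ^ R) ^ r := by
      refine h1.trans ((Finset.sum_le_sum h2).trans ?_)
      rw [Finset.sum_const, smul_eq_mul]
    calc (T.card : ℝ) ≤ ((T₀.card * ((2 * Z + 1) ^ R) ^ r : ℕ) : ℝ) := by exact_mod_cast h3
      _ = (T₀.card : ℝ) * ((2 * (Z : ℝ) + 1) ^ R) ^ r := by push_cast; ring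
      _ ≤ X ^ (ε / 4) * X ^ (ε / 4) :=
          mul_le_mul hT₀ hcond (by positivity) (Real.rpow_nonneg hXpos.le _)
      _ = X ^ (ε / 2) := by
          rw [← Real.rpow_add hXpos]; congr 1; ring
      _ ≤ X ^ ε := Real.rpow_le_rpow_of_exponent_le hX1 (by linarith)
  · intro u hu s
    obtain ⟨t, ht, hut⟩ := Finset.mem_biUnion.mp hu
    rw [Fintype.mem_piFinset] at hut
    obtain ⟨h1, h2⟩ := (hQ t ht).2.1 (u s) (hut s)
    refine ⟨h1, fun p hp hval => ?_⟩
    by_contra hpS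
    apply hval
    apply padic_of_mem t (fun s => (hTS t ht s).1) _ h1 h2 p hp
    intro s'
    by_contra hne
    exact hpS ((hTS t ht s').2.2.2 p hp hne)
  · intro g hg hg1 hg2
    obtain ⟨t, ht, htg⟩ := hmain g hg hg1 hg2
    obtain ⟨n, hn1, hn2, hn3⟩ := small_generators t (fun s => (hTS t ht s).1) g hg Λ hΛ1
      (fun s p hp => padic_bound p hp _ (hTS t ht s).1 X (hTS t ht s).2.1 (hTS t ht s).2.2.1)
      (fun k p hp => padic_bound p hp _ (hg k) X (hg1 k) (hg2 k))
    let u : Fin r → ℚ := fun i => ∏ k, g k ^ n i k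
    have hu0 : ∀ i, 0 < u i := fun i => Finset.prod_pos (fun k _ => zpow_pos (hg k) _)
    have hulog : ∀ i, Real.log (u i) = ∑ k, (n i k : ℝ) * Real.log (g k) := fun i =>
      log_comb g hg (n i)
    have hspan : Submodule.span ℚ (Set.range fun i => ∑ k, (n i k : ℝ) * Real.log (g k)) =
        Submodule.span ℚ (Set.range fun s => Real.log (u s)) := by
      congr 2
      funext i
      exact (hulog i).symm
    rw [hspan] at hn3
    have huQ : u ∈ Fintype.piFinset (fun _ : Fin r => Q t) := by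
      rw [Fintype.mem_piFinset]
      intro i
      apply (hQ t ht).2.2 (u i) (hu0 i)
      · rw [hulog]
        exact hn2 i
      · intro p hp
        have : Fact p.Prime := ⟨hp⟩
        have h1 : padicValRat p (u i) = ∑ k, n i k * padicValRat p (g k) :=
          padic_finset Finset.univ g hg (n i) p
        rw [h1]
        push_cast
        have h2 := abs_comb_le (n i) (fun k => ((padicValRat p (g k) : ℤ) : ℝ))
          ((((R + r + 1).factorial : ℕ) : ℝ) * Λ ^ (R + r)) Λ (by positivity) (hn1 i)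
          (fun k => padic_bound p hp _ (hg k) X (hg1 k) (hg2 k))
        exact h2.trans (Nat.le_ceil _)
    refine ⟨u, Finset.mem_biUnion.mpr ⟨t, ht, huQ⟩, ?_, ?_⟩
    · rw [Submodule.span_le]
      rintro x ⟨i, rfl⟩
      simp only
      rw [hulog]
      apply Submodule.sum_mem
      intro k _
      have h3 : (n i k : ℝ) * Real.log (g k) = ((n i k : ℤ) : ℚ) • Real.log (g k) := by
        rw [Rat.smul_def]; push_cast; ring
      rw [h3]
      exact Submodule.smul_mem _ _ (Submodule.subset_span ⟨k, rfl⟩)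
    · intro m a M hm ha hM hrow hcol
      have hM' : ∀ i j, M i j = ∑ k, (m i j k : ℝ) * Real.log (g k) := by
        intro i j
        rw [hM, ha, log_comb g hg]
      rcases htg m a M hm ha hM hrow hcol with h | h | ⟨h1, w, hw0, hw1, h⟩
      · left
        intro i j
        refine ⟨?_, (h i j).2⟩
        have h1 := (h i j).1
        rw [hM'] at h1 ⊢
        exact hn3 (m i j) h1
      · exact Or.inr (Or.inl h)
      · right
        right
        refine ⟨h1, w, hw0, hw1, ?_⟩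
        rcases h with h | h
        · left
          intro i
          refine ⟨(h i).1, ?_⟩
          have h3 : ∑ j, M i j * (w j : ℝ) =
              ∑ k, ((m i 0 k * w 0 + m i 1 k * w 1 : ℤ) : ℝ) * Real.log (g k) := by
            rw [Fin.sum_univ_two, hM', hM', Finset.sum_mul, Finset.sum_mul,
              ← Finset.sum_add_distrib]
            apply Finset.sum_congr rfl
            intro k _
            push_cast
            ring
          have h4 := (h i).2
          rw [h3] at h4 ⊢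
          exact hn3 _ h4
        · right
          intro j
          refine ⟨(h j).1, ?_⟩
          have h3 : ∑ i, (w i : ℝ) * M i j =
              ∑ k, ((m 0 j k * w 0 + m 1 j k * w 1 : ℤ) : ℝ) * Real.log (g k) := by
            rw [Fin.sum_univ_two, hM', hM', Finset.mul_sum, Finset.mul_sum,
              ← Finset.sum_add_distrib]
            apply Finset.sum_congr rfl
            intro k _
            push_cast
            ring
          have h4 := (h j).2
          rw [h3] at h4 ⊢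
          exact hn3 _ h4

end Pool.Agent.FewGroups
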